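import Pool.Agent.P.MP_7a6434d8_pr.QL.NT.Main
import Pool.Agent.P.MP_7a6434d8_pr.QL.C.Api

/-! Block NDQ. -/

open MeasureTheory ProbabilityTheory Filter Finset
open scoped ENNReal unitInterval

namespace Pool.Agent.QL.NT

open Pool.Agent.P.MP_7a6434d8_pr Mp

theorem twoPt_of (hH : HoleStmt) (hP : LC.PBStmt) : TwoPt := by
  classical
  intro η hη
  choose H hH using hH
  obtain ⟨r₀, B, hr₀, -, h⟩ := hP ⟨H, hH⟩ η hη
  refine ⟨3 * r₀, by positivity, h.mono fun n hn => ?_⟩
  set A : Set LC.RZ := {z | cn n * z.q.graph.dist (z.S 0) (z.S 1) ≤ 3 * (r₀ : ℝ)} with hA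
  have hm : Measurable fun z : LC.RZ => z.q.graph.dist (z.S 0) (z.S 1) :=
    LC.measurable_rz fun n q =>
      (Measurable.of_discrete (f := fun p : q.Vertex × q.Vertex => q.graph.dist p.1 p.2)).comp
        (f := fun p : I × (ℕ → q.Vertex) => (p.2 0, p.2 1)) (by fun_prop)
  have hA' : MeasurableSet A :=
    hm (MeasurableSet.of_discrete (s := {k : ℕ | cn n * k ≤ 3 * (r₀ : ℝ)}))
  have h1 := LC.lintegral_lawN n (measurable_one.indicator hA')
  rw [lintegral_indicator_one hA'] at h1
  have h2 : (fun ρ : I => EQS n fun q S => A.indicator 1 (LC.RZ.mk' q (ρ, S))) =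
      fun _ => EQS n (fun q S => if cn n * q.graph.dist (S 0) (S 1) ≤ 3 * (r₀ : ℝ) then 1
        else 0) := by
    funext ρ
    congr 1
  rw [h2, lintegral_const, measure_univ, mul_one] at h1
  rw [← h1]
  refine le_trans (measure_mono fun z hz => ?_) hn
  exact fun h => absurd h.1 (not_lt.2 hz)

theorem ndq_stmt (hH : HoleStmt) (hP : LC.PBStmt) (hQ : QVStmt) : LC.NDQStmt := by
  intro u hu hN A hA ε hε η hη
  obtain ⟨-, B, hB⟩ := hu
  have hg := LC.gam_pos
  have hk : ∀ n, 0 < LC.kapN u n := fun n => Real.exp_pos _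
  refine nt (LC.kapOf u) (fun n => A * n * LC.kapN u n) (Real.exp B / A) (by positivity) ?_ ?_ hN
    hQ (ballSmall_of (twoPt_of hH hP)) ε hε η hη
  · filter_upwards [eventually_gt_atTop 0] with n hn
    have := hk n
    positivity
  · intro θ hθ hθ1
    have t : Tendsto (fun n : ℕ => Real.log n / gam) atTop atTop :=
      (Real.tendsto_log_atTop.comp tendsto_natCast_atTop_atTop).atTop_div_const hg
    filter_upwards [t.eventually (hB (-Real.log (θ ^ 2 / 64) / gam)), eventually_gt_atTop 0]
      with n h hn i i1 i2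
    have hn0 : (0 : ℝ) < n := by exact_mod_cast hn
    have hx := Real.sqrt_pos.2 hn0
    have hxx : √(n : ℝ) ^ 2 = n := Real.sq_sqrt hn0.le
    have hi : (0 : ℝ) < i := by
      have : 0 < θ * √(n : ℝ) := by positivity
      linarith
    have j1 : (i : ℝ) ^ 2 ≤ n := by
      rw [← hxx]
      refine pow_le_pow_left₀ hi.le (i2.trans ?_) 2
      exact mul_le_of_le_one_left hx.le (by linarith)
    have j2 : θ ^ 2 / 64 * n ≤ (i : ℝ) ^ 2 := by
      have := pow_le_pow_left₀ (by positivity) i1 2
      rw [mul_pow, hxx] at this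
      linarith
    have l1 : 2 * Real.log i ≤ Real.log n := by
      have := Real.log_le_log (by positivity) j1
      rwa [Real.log_pow, Nat.cast_ofNat] at this
    have l2 : Real.log (θ ^ 2 / 64) + Real.log n ≤ 2 * Real.log i := by
      have := Real.log_le_log (by positivity) j2
      rwa [Real.log_pow, Nat.cast_ofNat, Real.log_mul (by positivity) hn0.ne'] at this
    have l3 := h (2 * Real.log i / gam) (by
      rw [← sub_div, abs_div, abs_of_pos hg, abs_of_nonpos (by linarith)]
      gcongr
      linarith)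
    have l4 : LC.kapOf u i ≤ Real.exp B * LC.kapN u n := by
      unfold LC.kapOf LC.kapN
      rw [← Real.exp_add]
      exact Real.exp_le_exp.2 (by linarith [(abs_le.1 l3).2])
    have l5 : 0 < LC.kapOf u i := Real.exp_pos _
    calc (i : ℝ) ^ 2 * LC.kapOf u i ≤ n * (Real.exp B * LC.kapN u n) := by gcongr
      _ = _ := by field_simp

end Pool.Agent.QL.NT
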