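import Pool.Agent.P.MP_7a6434d8_pr.QL.NT.Rng
import Pool.Agent.P.MP_7a6434d8_pr.ZLink0
import Pool.Agent.P.MP_7a6434d8_pr.ZReroot
import Pool.Agent.P.MP_7a6434d8_pr.UDeg

/-! Small balls, degree of the root. -/

open MeasureTheory ProbabilityTheory Filter Finset
open scoped ENNReal

namespace Pool.Agent.QL.NT

open Pool.Agent.P.MP_7a6434d8_pr Mp

private theorem ball_cn_pos {n : ℕ} (hn : 1 ≤ n) : 0 < cn n := by
  have : (0 : ℝ) < n := by exact_mod_cast hn
  unfold cn
  positivity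

open Classical in
/-- a large ball forces two uniform vertices to be close with probability of order `v ^ 2` -/
private theorem ball_pair {n : ℕ} (hn : 1 ≤ n) (q : Quad n) (t : Mp) (h : Rep q t) {v ρ : ℝ}
    (hv : 0 < v) {k : ℕ} (hk : cn n * (2 * k) ≤ ρ) (x : V t) (hx : v * n < ballN t k x) :
    ENNReal.ofReal (v ^ 2 / 9) ≤
      ∫⁻ S, (if cn n * q.graph.dist (S 0) (S 1) ≤ ρ then 1 else 0) ∂smpl q.Vertex := by
  have : Fintype q.Vertex := Fintype.ofFinite _
  obtain ⟨θ, j, -, -, -, -, hd, -⟩ := rep_iso q t h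
  have hcard : Fintype.card q.Vertex = n + 2 := by
    rw [Fintype.card_congr j, card_V t h.1, h.2.1]
    have := h.2.2.1
    omega
  rw [lintegral_smpl2 (fun x y : q.Vertex => if cn n * q.graph.dist x y ≤ ρ then 1 else 0), hcard]
  set B : Finset q.Vertex := univ.filter fun y => Within t k x (j y) with hB
  have hBc : B.card = ballN t k x := by
    unfold ballN
    refine card_bij (fun y _ => j y) (fun y hy => ?_) (fun y _ y' _ e => j.injective e)
      fun z hz => ⟨j.symm z, ?_, by simp⟩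
    · simpa [hB] using hy
    · simpa [hB] using hz
  have h1 : ((B.card : ℝ≥0∞)) ^ 2 ≤
      ∑ x : q.Vertex, ∑ y : q.Vertex, if cn n * q.graph.dist x y ≤ ρ then (1 : ℝ≥0∞) else 0 := by
    calc ((B.card : ℝ≥0∞)) ^ 2 = ∑ _x ∈ B, ∑ _y ∈ B, (1 : ℝ≥0∞) := by
          simp [sq]
      _ ≤ ∑ x ∈ B, ∑ y ∈ B, if cn n * q.graph.dist x y ≤ ρ then (1 : ℝ≥0∞) else 0 := by
          refine sum_le_sum fun a ha => sum_le_sum fun b hb => ?_
          have ha' : Within t k x (j a) := (mem_filter.1 ha).2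
          have hb' : Within t k x (j b) := (mem_filter.1 hb).2
          have h2 : q.graph.dist a b ≤ k + k := (hd _ a b).2 (ha'.symm.trans hb')
          have h3 : (q.graph.dist a b : ℝ) ≤ 2 * k := by
            have : ((q.graph.dist a b : ℕ) : ℝ) ≤ ((k + k : ℕ) : ℝ) := by exact_mod_cast h2
            push_cast at this
            linarith
          rw [if_pos ((mul_le_mul_of_nonneg_left h3 (ball_cn_pos hn).le).trans hk)]
      _ ≤ ∑ x ∈ B, ∑ y, if cn n * q.graph.dist x y ≤ ρ then (1 : ℝ≥0∞) else 0 :=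
          sum_le_sum fun a _ => sum_le_sum_of_subset (subset_univ _)
      _ ≤ _ := sum_le_sum_of_subset (subset_univ _)
  rw [ENNReal.le_div_iff_mul_le (Or.inl (by simp)) (Or.inl (by simp))]
  refine le_trans ?_ h1
  have hn' : (1 : ℝ) ≤ n := by exact_mod_cast hn
  have h4 : v ^ 2 / 9 * ((n + 2 : ℕ) : ℝ) ^ 2 ≤ (B.card : ℝ) ^ 2 := by
    rw [hBc]
    push_cast
    have h5 : v / 3 * (n + 2) ≤ v * n := by nlinarith
    have h6 : 0 ≤ v / 3 * (n + 2) := by positivity
    calc v ^ 2 / 9 * ((n : ℝ) + 2) ^ 2 = (v / 3 * (n + 2)) ^ 2 := by ring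
      _ ≤ _ := pow_le_pow_left₀ h6 (h5.trans hx.le) 2
  have h7 := ENNReal.ofReal_le_ofReal h4
  rw [ENNReal.ofReal_mul (by positivity), ENNReal.ofReal_pow (by positivity),
    ENNReal.ofReal_pow (by positivity), ENNReal.ofReal_natCast, ENNReal.ofReal_natCast] at h7
  exact h7

theorem ballSmall_of (h : TwoPt) : BallSmall := by
  classical
  intro v η hv hη
  obtain ⟨ρ, hρ, hev⟩ := h (ENNReal.ofReal (η * (v ^ 2 / 9)))
    (ENNReal.ofReal_pos.2 (by positivity))
  refine ⟨ρ / 2, by positivity, ?_⟩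
  filter_upwards [hev, eventually_ge_atTop 1] with n hE hn
  have : Fintype (Quad n) := Fintype.ofFinite _
  have : Finite (RootedQuad n) := Quot.finite _
  have : Fintype (RootedQuad n) := Fintype.ofFinite _
  set k := ⌊ρ / 2 / cn n⌋₊ with hkd
  have hc := ball_cn_pos hn
  have hk : cn n * (2 * k) ≤ ρ := by
    have h1 : (k : ℝ) ≤ ρ / 2 / cn n := Nat.floor_le (by positivity)
    rw [le_div_iff₀ hc] at h1
    nlinarith
  set b : Mp → ℝ := fun t => if ∃ x, v * n < ballN t k x then 1 else 0 with hb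
  have hb0 : ∀ t, 0 ≤ b t := fun t => by
    simp only [hb]
    split_ifs <;> norm_num
  have hsum : ∀ f : Mp → ℝ, ∑ q : Quad n, f (linkcEnc (Quot.mk _ q)) =
      (∑ t ∈ countaT 2 (n - 1), f t) * (Nat.factorial (4 * n) : ℝ) := fun f => by
    rw [zreroot_labelled (fun c => f (linkcEnc c)), zreroot_classes hn]
  have hN : (Nat.card (Quad n) : ℝ) =
      ((countaT 2 (n - 1)).card : ℝ) * (Nat.factorial (4 * n) : ℝ) := by
    have := hsum fun _ => 1
    simpa using this
  unfold EQS at hE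
  rw [ENNReal.div_le_iff_le_mul (Or.inr ENNReal.ofReal_ne_top) (Or.inl (by simp)),
    tsum_fintype] at hE
  have h1 : ∑ q : Quad n, ENNReal.ofReal (v ^ 2 / 9 * b (linkcEnc (Quot.mk _ q))) ≤
      ENNReal.ofReal (η * (v ^ 2 / 9)) * Nat.card (Quad n) := by
    refine le_trans (sum_le_sum fun q _ => ?_) hE
    simp only [hb]
    split_ifs with hx
    · obtain ⟨x, hx⟩ := hx
      rw [mul_one]
      exact ball_pair hn q _ (linkc_rep q) hv hk x hx
    · simp
  rw [← ENNReal.ofReal_sum_of_nonneg fun q _ => mul_nonneg (by positivity) (hb0 _),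
    ← ENNReal.ofReal_natCast, ← ENNReal.ofReal_mul (by positivity),
    ENNReal.ofReal_le_ofReal_iff (by positivity), ← mul_sum, hsum, hN] at h1
  have hf : (0 : ℝ) < Nat.factorial (4 * n) := by exact_mod_cast Nat.factorial_pos _
  have h2 : ∑ t ∈ countaT 2 (n - 1), b t ≤ η * (countaT 2 (n - 1)).card := by
    have h3 : 0 < v ^ 2 / 9 * (Nat.factorial (4 * n) : ℝ) := by positivity
    refine le_of_mul_le_mul_left ?_ h3
    calc _ = v ^ 2 / 9 * ((∑ t ∈ countaT 2 (n - 1), b t) * (Nat.factorial (4 * n) : ℝ)) := by ring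
      _ ≤ _ := h1
      _ = _ := by ring
  unfold nS cLm
  rw [counta_cnt_true, ← mul_div_assoc]
  exact div_le_div_of_nonneg_right h2 (by positivity)

private theorem ball_deg {n : ℕ} (q : Quad n) (d : Fin (4 * n)) {j : ℕ} (hj : 0 < j)
    (h : ((q.φ * q.α) ^ j) d = d) : (q.out (q.tail d)).card ≤ j := by
  classical
  have hper : ∀ i : ℕ, ((q.φ * q.α) ^ i) d = ((q.φ * q.α) ^ (i % j)) d := by
    intro i
    conv_lhs => rw [← Nat.mod_add_div i j, pow_add, pow_mul, Equiv.Perm.mul_apply]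
    rw [Equiv.Perm.pow_apply_eq_self_of_apply_eq_self h]
  have hsub : q.out (q.tail d) ⊆ (range j).image fun i => ((q.φ * q.α) ^ i) d := by
    intro e he
    have h1 : q.tail e = q.tail d := (mem_filter.1 he).2
    have h2 : (q.φ * q.α).SameCycle d e := (Quotient.exact h1).symm
    obtain ⟨i, hi⟩ := h2.exists_nat_pow_eq
    exact mem_image.2 ⟨i % j, mem_range.2 (Nat.mod_lt _ hj), by rw [← hper, hi]⟩
  exact (card_le_card hsub).trans (card_image_le.trans (card_range j).le)

theorem root_deg (η : ℝ) (hη : 0 < η) : ∃ D : ℕ, ∀ᶠ n : ℕ in atTop,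
    (Nat.card {c : RootedQuad n // ∃ q : Quad n, Quot.mk _ q = c ∧
      D < (q.out (q.tail q.root)).card} : ℝ) ≤ η * (Nat.card (RootedQuad n) : ℝ) := by
  obtain ⟨D, hD⟩ := deg_tight [] η hη
  refine ⟨D, ?_⟩
  filter_upwards [hD] with n hn
  refine le_trans ?_ hn
  have : Finite (RootedQuad n) := Quot.finite _
  refine Nat.cast_le.2 (Nat.card_le_card_of_injective
    (Subtype.map id ?_) (Subtype.map_injective _ Function.injective_id))
  rintro c ⟨q, hq, h⟩
  refine ⟨q, hq, fun j hj hjD => ?_⟩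
  by_contra hc
  have h1 : act q.α q.φ q.root (sigw j ++ []) = act q.α q.φ q.root [] := by
    simpa [code] using hc
  rw [List.append_nil, act_sigw] at h1
  have := ball_deg q q.root hj h1
  omega

end Pool.Agent.QL.NT
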