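import Pool.Agent.P.MP_7a6434d8_pr.QL.NT.Det

/-! Counting the darts that start at a trap. -/

open MeasureTheory ProbabilityTheory Filter Finset
open scoped ENNReal

namespace Pool.Agent.QL.NT

open Pool.Agent.P.MP_7a6434d8_pr Mp

open Classical in
theorem near_bd {s t : Mp} (hs : ok s) {ι : V s → V t} (hι : Sub s t ι) (R y : ℕ) :
    (univ.filter fun x : V s => dB s x ≤ R).card ≤
      rngN s y + ballN t (R + y) (ι (bv s 0)) := by
  have h1 : (univ.filter fun x : V s => dB s x ≤ R) ⊆
      (univ.filter fun x : V s => ∃ p p', p ≤ 2 * per s ∧ p' ≤ 2 * per s ∧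
        dW s x (bv s p) + y ≤ dW s x (bv s p')) ∪
      univ.filter fun x : V s => Within t (R + y) (ι (bv s 0)) (ι x) := by
    intro x hx
    have hx' := (mem_filter.1 hx).2
    obtain ⟨p, hp, e⟩ := M2.dB_ex x
    by_cases h : dW s x (bv s p) + y ≤ dW s x (bv s 0)
    · exact mem_union_left _ (mem_filter.2 ⟨mem_univ _, p, 0, hp, Nat.zero_le _, h⟩)
    · refine mem_union_right _ (mem_filter.2 ⟨mem_univ _, ?_⟩)
      exact Within.map ι hι.map ((M2.dW_le_iff hs).1 (by omega : dW s x (bv s 0) ≤ R + y)).symm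
  refine (card_le_card h1).trans ((card_union_le _ _).trans (Nat.add_le_add le_rfl ?_))
  exact card_le_card_of_injOn ι (fun x hx => mem_filter.2 ⟨mem_univ _, (mem_filter.1 hx).2⟩)
    hι.inj.injOn

open Classical in
theorem bad_darts {n : ℕ} {q : Quad n} {t s : Mp} (h : Rep q t) (hs : ok s)
    {ι : V s → V t} (hι : Sub s t ι) {a ε r V0 c v : ℝ} (ha : 0 < a) (hc : c ≤ ε * a)
    {R : ℕ} (D y : ℕ) (hR : ∀ k : ℕ, cn n * k ≤ r → k ≤ R)
    (hV : ∀ x, 4 * (ballN t (R + 2) x : ℝ) ≤ V0) (hv : ∀ x, (ballN t (R + y) x : ℝ) ≤ v) :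
    ((univ.filter fun d => ¬ NoTrap q a ε r (q.tail d) ∧ (q.out (q.tail d)).card ≤ D).card : ℝ) ≤
      D * ((n + 2 - size s) + rngN s y + v + badN s V0 c) := by
  obtain ⟨j, hj⟩ := notrap_of_good h hs hι ha hc hR hV
  set S := univ.filter fun d => ¬ NoTrap q a ε r (q.tail d) ∧ (q.out (q.tail d)).card ≤ D with hS
  have h1 : S.card ≤ D * (S.image fun d => j (q.tail d)).card := by
    refine card_le_mul_card_image _ _ fun z hz => ?_
    obtain ⟨d0, hd0, rfl⟩ := mem_image.1 hz
    refine (card_le_card fun d hd => ?_).trans (mem_filter.1 hd0).2.2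
    exact mem_filter.2 ⟨mem_univ _, j.injective (mem_filter.1 hd).2⟩
  have h2 : (S.image fun d => j (q.tail d)) ⊆ (univ \ univ.image ι) ∪
      ((univ.filter fun x : V s => dB s x ≤ R) ∪
        univ.filter fun x : V s => ¬ ND.GoodV s x V0 c).image ι := by
    intro z hz
    obtain ⟨d, hd, rfl⟩ := mem_image.1 hz
    by_cases hz' : j (q.tail d) ∈ univ.image ι
    · obtain ⟨x, -, hx⟩ := mem_image.1 hz'
      refine mem_union_right _ (mem_image.2 ⟨x, ?_, hx⟩)
      by_cases h3 : dB s x ≤ R
      · exact mem_union_left _ (mem_filter.2 ⟨mem_univ _, h3⟩)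
      · refine mem_union_right _ (mem_filter.2 ⟨mem_univ _, fun hg => (mem_filter.1 hd).2.1 ?_⟩)
        have := hj x (not_le.1 h3) hg
        rwa [hx, Equiv.symm_apply_apply] at this
    · exact mem_union_left _ (mem_sdiff.2 ⟨mem_univ _, hz'⟩)
  have h3 : (univ \ univ.image ι).card + size s ≤ n + 2 := by
    have e1 := card_sdiff_add_card_eq_card (subset_univ (univ.image ι))
    rw [card_image_of_injective _ hι.inj, card_univ, card_univ, card_V s hs, card_V t h.1,
      h.2.1] at e1
    have := h.2.2.1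
    omega
  have h4 : (S.image fun d => j (q.tail d)).card ≤ (univ \ univ.image ι).card +
      (rngN s y + ballN t (R + y) (ι (bv s 0)) + badN s V0 c) :=
    (card_le_card h2).trans ((card_union_le _ _).trans (Nat.add_le_add le_rfl
      (card_image_le.trans ((card_union_le _ _).trans
        (Nat.add_le_add (near_bd hs hι R y) le_rfl)))))
  have h1' : (S.card : ℝ) ≤ D * ((S.image fun d => j (q.tail d)).card : ℝ) := by exact_mod_cast h1
  have h3' : ((univ \ univ.image ι).card : ℝ) + size s ≤ n + 2 := by exact_mod_cast h3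
  have h4' : ((S.image fun d => j (q.tail d)).card : ℝ) ≤ ((univ \ univ.image ι).card : ℝ) +
      (rngN s y + ballN t (R + y) (ι (bv s 0)) + badN s V0 c) := by exact_mod_cast h4
  refine h1'.trans (mul_le_mul_of_nonneg_left ?_ (Nat.cast_nonneg _))
  have := hv (ι (bv s 0))
  linarith

end Pool.Agent.QL.NT
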