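import Pool.Agent.P.MP_7a6434d8_pr.QL.M2.Dist
import Pool.Agent.P.MP_7a6434d8_pr.QL.ND.Defs
import Pool.Agent.P.MP_7a6434d8_pr.QL.WDefs
import Pool.Agent.P.MP_7a6434d8_pr.QL.M1.CntC

/-! Exploration of a disc along the larger part, subdiscs, normalised sums. -/

open MeasureTheory ProbabilityTheory Filter Finset
open scoped ENNReal

namespace Pool.Agent.QL.NT

open Pool.Agent.P.MP_7a6434d8_pr Mp

open Classical in
/-- Peel the root edge and follow the larger part. Stop at a disc whose perimeter satisfies `st`,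
give up at a disc whose perimeter satisfies `ki`, stop after swallowing a part whose perimeter
satisfies `me`. -/
noncomputable def ex (st ki me : ℕ → Prop) : Mp → Mp
  | pt => pt
  | face t => if st (per (face t)) then face t else if ki (per (face t)) then pt
      else ex st ki me t
  | bridge a b => if st (per (bridge a b)) then bridge a b
      else if ki (per (bridge a b)) then pt
      else if size b ≤ size a then (if me (per b) then a else ex st ki me a)
      else (if me (per a) then b else ex st ki me b)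

/-- exploration up to the perimeter `L₀` -/
noncomputable def ex1 (L₀ : ℕ) : Mp → Mp := ex (fun L => L = L₀) (fun _ => False) fun _ => False

/-- exploration up to the first jump of size at least `j₀` -/
noncomputable def ex2 (L₀ j₀ : ℕ) : Mp → Mp :=
  ex (fun _ => False) (fun L => 2 * L < L₀ ∨ 3 * L₀ < 2 * L) fun j => j₀ ≤ j

/-- inner vertex -/
def Inn (t : Mp) (x : V t) : Prop := ∀ p, p ≤ 2 * per t → bv t p ≠ x

/-- `s` is a subdisc of `t` -/
structure Sub (s t : Mp) (ι : V s → V t) : Prop where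
  inj : Function.Injective ι
  inn : ∀ x, Inn s x → Inn t (ι x)
  lap : ∀ x, Inn s x → ∀ w : V t → ℝ, ND.lapV t w (ι x) = ND.lapV s (fun y => w (ι y)) x
  dg : ∀ x, Inn s x → dg t (ι x) = dg s x
  out : ∀ x, Inn s x → ∀ z, adj t (ι x) z → ∃ y, ι y = z ∧ adj s x y
  map : ∀ x y, adj s x y → adj t (ι x) (ι y)

/-- normalised sum over the discs of half-perimeter `L` with `m` inner faces -/
noncomputable def nS (L m : ℕ) (F : Mp → ℝ) : ℝ := (∑ t ∈ countaT L m, F t) / (12 ^ m * 8 ^ L)

/-- `χ` has Boltzmann mean at most `β` at half-perimeter `i` -/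
def Dom (χ : Mp → ℝ) (β : ℝ) (i : ℕ) : Prop := ∀ M : ℕ, ∑ y ∈ range M, nS i y χ ≤ β * w i

/-- the harmonic function of the perimeter walk -/
noncomputable def hh (L : ℕ) : ℝ := L * m1a L

open Classical in
/-- number of vertices within distance `k` of `x` -/
noncomputable def ballN (t : Mp) (k : ℕ) (x : V t) : ℕ := (univ.filter (Within t k x)).card

open Classical in
/-- number of vertices whose distances to the boundary vertices have range at least `y` -/
noncomputable def rngN (t : Mp) (y : ℕ) : ℕ := (univ.filter fun x : V t =>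
  ∃ p p', p ≤ 2 * per t ∧ p' ≤ 2 * per t ∧ dW t x (bv t p) + y ≤ dW t x (bv t p')).card

open Classical in
/-- number of vertices that are not good -/
noncomputable def badN (t : Mp) (V0 c : ℝ) : ℕ :=
  (univ.filter fun v : V t => ¬ ND.GoodV t v V0 c).card

open Classical in
/-- A macroscopic subdisc that contains most of the map, whose law is uniform given perimeter and
size and is dominated by the Boltzmann law. -/
def Explore (η ζ θ K : ℝ) (n : ℕ) (e : Mp → Mp) : Prop :=
  (∀ t, ok t → ok (e t) ∧ ∃ ι, Sub (e t) t ι) ∧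
  (∀ (F : Mp → ℝ) (β : ℝ), (∀ L m, nS L m F ≤ β * cLm L m) →
    nS 2 (n - 1) (fun t => F (e t)) ≤ β * cLm 2 (n - 1)) ∧
  ∀ (χ : Mp → ℝ) (β : ℝ), (∀ s, 0 ≤ χ s ∧ χ s ≤ 1) → 0 ≤ β →
    (∀ i : ℕ, θ * √(n : ℝ) ≤ 8 * i → (i : ℝ) ≤ 2 * θ * √(n : ℝ) → Dom χ β i) →
    nS 2 (n - 1) (fun t => if θ * √(n : ℝ) ≤ 8 * per (e t) ∧
      (per (e t) : ℝ) ≤ 2 * θ * √(n : ℝ) ∧ (1 - ζ) * n ≤ size (e t) then χ (e t) else 1) ≤
      (η + K * β) * cLm 2 (n - 1)

open Classical in
/-- Small balls contain few vertices. -/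
def BallSmall : Prop :=
  ∀ v η : ℝ, 0 < v → 0 < η → ∃ ρ : ℝ, 0 < ρ ∧ ∀ᶠ n : ℕ in atTop,
    nS 2 (n - 1) (fun t => if ∃ x, v * n < ballN t ⌊ρ / cn n⌋₊ x then 1 else 0) ≤
      η * cLm 2 (n - 1)

/-- Two uniform vertices are macroscopically far apart. -/
def TwoPt : Prop :=
  ∀ η : ℝ≥0∞, 0 < η → ∃ ρ : ℝ, 0 < ρ ∧ ∀ᶠ n : ℕ in atTop,
    EQS n (fun q S => if cn n * q.graph.dist (S 0) (S 1) ≤ ρ then 1 else 0) ≤ η

end Pool.Agent.QL.NT
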