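import Pool.Agent.P.MP_7a6434d8_pr.QL.NT.Sub
import Pool.Agent.P.MP_7a6434d8_pr.ZLink0
import Pool.Agent.P.MP_7a6434d8_pr.QL.W.Deg
import Pool.Agent.P.MP_7a6434d8_pr.QL.W.AGreen

/-! From a good vertex of a subdisc to a vertex without trap. -/

open MeasureTheory ProbabilityTheory Filter Finset
open scoped ENNReal

namespace Pool.Agent.QL.NT

open Pool.Agent.P.MP_7a6434d8_pr Mp

open Classical in
/-- the sum of the degrees in a ball -/
theorem vol_ball {n : ℕ} {q : Quad n} {t : Mp} (h : Rep q t) (R : ℕ) (x : V t) :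
    ∑ z ∈ univ.filter (Within t R x), dg t z ≤ 4 * ballN t (R + 2) x := by
  obtain ⟨θ, j, -, -, -, -, hd, -, hs, -⟩ := rep_iso q t h
  have hn : (0 : ℝ) < n := by exact_mod_cast n_pos q
  have hcard : Fintype.card (V t) = n + 2 := by
    have h1 := card_V t h.1
    have h2 := h.2.1
    have h3 := h.2.2.1
    omega
  obtain ⟨g, hg⟩ : ∃ g : V t → ℝ, g = fun z => if Within t R x z then 1 else 0 := ⟨_, rfl⟩
  have h1 : ∑ z ∈ univ.filter (Within t R x), dg t z = 4 * n * avg q (fun y => g (j y)) := by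
    rw [avg, hs g, Finset.sum_filter, mul_div_cancel₀ _ (by positivity)]
    refine Finset.sum_congr rfl fun z _ => ?_
    rw [hg]
    dsimp only
    split_ifs
    · rw [mul_one]
    · rw [mul_zero]
  obtain ⟨C, hC⟩ : ∃ C : Finset (V t), C = univ.filter (fun z => ¬ Within t (R + 2) x z) :=
    ⟨_, rfl⟩
  have h2 := card_le_avg q (j.symm '' (C : Set (V t)))
  rw [Set.ncard_image_of_injective _ j.symm.injective, Set.ncard_coe_finset] at h2
  have h3 : avg q (ind {y | ∃ x ∈ j.symm '' (C : Set (V t)), q.graph.dist x y ≤ 2})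
      ≤ avg q (fun y => 1 - g (j y)) := by
    refine avg_mono q fun y => ?_
    rw [hg]
    dsimp only
    by_cases hy : Within t R x (j y)
    · rw [if_pos hy, sub_self, ind, Set.indicator_of_notMem]
      rintro ⟨_, ⟨z, hz, rfl⟩, h4⟩
      rw [hd, Equiv.apply_symm_apply] at h4
      rw [hC, Finset.mem_coe, Finset.mem_filter] at hz
      exact hz.2 (hy.trans h4.symm)
    · rw [if_neg hy, sub_zero, ind]
      exact Set.indicator_le_self' (fun _ _ => zero_le_one) y
  rw [avg_sub, avg_const] at h3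
  have h4 : ballN t (R + 2) x + C.card = n + 2 := by
    rw [ballN, hC, ← hcard, ← Finset.card_univ]
    convert Finset.card_filter_add_card_filter_not (s := (univ : Finset (V t)))
      (Within t (R + 2) x)
  have h5 : (ballN t (R + 2) x : ℝ) + C.card = n + 2 := by exact_mod_cast h4
  have h6 : (C.card : ℝ) ≤ 2 + n * (1 - avg q (fun y => g (j y))) := by
    have h7 := (div_le_iff₀ hn).1 (h2.trans (add_le_add le_rfl h3))
    rw [add_mul, div_mul_cancel₀ _ hn.ne'] at h7
    linarith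
  rw [h1]
  nlinarith

theorem notrap_of_good {n : ℕ} {q : Quad n} {t s : Mp} (h : Rep q t) (hs : ok s)
    {ι : V s → V t} (hι : Sub s t ι) {a ε r V0 c : ℝ} (ha : 0 < a) (hc : c ≤ ε * a) {R : ℕ}
    (hR : ∀ k : ℕ, cn n * k ≤ r → k ≤ R) (hV : ∀ x, 4 * (ballN t (R + 2) x : ℝ) ≤ V0) :
    ∃ j : q.Vertex ≃ V t, ∀ x : V s, R < dB s x → ND.GoodV s x V0 c →
      NoTrap q a ε r (j.symm (ι x)) := by
  classical
  obtain ⟨θ, j, h1, h2, -, -, hd, hdg, -, -⟩ := rep_iso q t h
  refine ⟨j, fun x hx hG => ?_⟩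
  have hin : ∀ z, Within s R x z → Inn s z := fun z hz p hp =>
    (M2.ne_bv_of_lt ((M2.dW_le hz).trans_lt hx) hp).symm
  have hvol : ∑ z ∈ univ.filter (Within s R x), dg s z ≤ V0 := by
    refine le_trans ?_ ((vol_ball h R (ι x)).trans (hV (ι x)))
    rw [← Finset.sum_congr rfl fun z hz => hι.dg z (hin z (Finset.mem_filter.1 hz).2),
      ← Finset.sum_image (f := dg t) fun a _ b _ hab => hι.inj hab]
    refine Finset.sum_le_sum_of_subset_of_nonneg ?_ fun z _ _ => energy_nonneg _ _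
    intro z hz
    obtain ⟨y, hy, rfl⟩ := Finset.mem_image.1 hz
    exact Finset.mem_filter.2 ⟨Finset.mem_univ _,
      Within.map ι hι.map (Finset.mem_filter.1 hy).2⟩
  obtain ⟨w, hw0, hw1, hw2⟩ := hG (univ.filter (Within s R x))
    (fun p hp hb => hin _ (Finset.mem_filter.1 hb).2 p hp rfl) hvol
  obtain ⟨W, hW⟩ : ∃ W : V t → ℝ, W = Function.extend ι w 0 := ⟨_, rfl⟩
  have hWι : ∀ z, W (ι z) = w z := fun z => by rw [hW, hι.inj.extend_apply]
  have hW0 : ∀ z, 0 ≤ W z := by
    intro z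
    by_cases hz : ∃ y, ι y = z
    · obtain ⟨y, rfl⟩ := hz
      rw [hWι]
      exact hw0 y
    · rw [hW, Function.extend_apply' _ _ _ hz]
      exact le_rfl
  have hlap : ∀ y : q.Vertex, ∑ e ∈ q.out y, (W (j (q.head e)) - W (j y))
      = -ND.lapV t W (j y) := by
    intro y
    rw [ND.lapV, Quad.out, Finset.sum_filter, ← Equiv.sum_comp θ, ← Finset.sum_neg_distrib]
    refine Finset.sum_congr rfl fun d _ => ?_
    have h3 : q.tail (θ d) = y ↔ org t d = j y := by
      rw [← h1 d]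
      exact j.injective.eq_iff.symm
    by_cases h4 : org t d = j y
    · rw [if_pos (h3.2 h4), if_pos h4, h2 d]
      ring
    · rw [if_neg (fun h5 => h4 (h3.1 h5)), if_neg h4, neg_zero]
  refine ⟨fun y => a⁻¹ * W (j y), fun y => mul_nonneg (inv_nonneg.2 ha.le) (hW0 _),
    fun y hy => ?_, ?_⟩
  · have h3 := (hd R _ _).1 (hR _ hy)
    rw [Equiv.apply_symm_apply] at h3
    obtain ⟨z, hz, hz'⟩ := hι.lift hs hx.le h3
    have h4 := hw1 z (Finset.mem_filter.2 ⟨Finset.mem_univ _, hz'⟩)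
    have h5 := hι.lap z (hin z hz') W
    have h6 := hι.dg z (hin z hz')
    simp only [hWι] at h5
    rw [hz] at h5 h6
    have h7 := card_out_pos q y
    rw [lap_cmul, mul_inv_cancel_left₀ ha.ne', lap, hlap, neg_div, neg_neg, le_div_iff₀ h7,
      one_mul, hdg, h6, h5]
    exact h4
  · dsimp only
    rw [Equiv.apply_symm_apply, hWι, inv_mul_le_iff₀ ha]
    linarith

end Pool.Agent.QL.NT
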