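import Pool.Agent.P.MP_7a6434d8_pr.QL.NT.Defs

/-! The perimeter walk: harmonic function and a convex test function. -/

open MeasureTheory ProbabilityTheory Filter Finset
open scoped ENNReal

namespace Pool.Agent.QL.NT

open Pool.Agent.P.MP_7a6434d8_pr Mp

theorem hh_zero : hh 0 = 0 := by simp [hh]

/-- coefficients of `(1 - x) ^ (3 / 2)` -/
noncomputable def numU : ℕ → ℝ
  | 0 => 1
  | 1 => -3 / 2
  | j + 2 => 3 / 8 * w j

theorem num_u_succ (k : ℕ) : ((k : ℝ) + 1) * numU (k + 1) = (k - 3 / 2) * numU k := by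
  rcases k with _ | _ | j
  · show (((0 : ℕ) : ℝ) + 1) * (-3 / 2) = (((0 : ℕ) : ℝ) - 3 / 2) * 1
    norm_num
  · show (((0 + 1 : ℕ) : ℝ) + 1) * (3 / 8 * w 0) = (((0 + 1 : ℕ) : ℝ) - 3 / 2) * (-3 / 2)
    rw [w_zero]
    norm_num
  · show (((j + 1 + 1 : ℕ) : ℝ) + 1) * (3 / 8 * w (j + 1))
      = (((j + 1 + 1 : ℕ) : ℝ) - 3 / 2) * (3 / 8 * w j)
    rw [w_succ]
    push_cast
    field_simp
    ring

theorem num_v_succ (i : ℕ) : ((i : ℝ) + 1) * hh (i + 2) = (i + 3 / 2) * hh (i + 1) := by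
  unfold hh
  rw [m1a_succ (i + 1)]
  push_cast
  field_simp
  ring

theorem num_conv (n : ℕ) :
    ((n : ℝ) + 1) * ∑ p ∈ antidiagonal (n + 1), numU p.1 * hh (p.2 + 1)
      = n * ∑ p ∈ antidiagonal n, numU p.1 * hh (p.2 + 1) := by
  have h1 : ((n : ℝ) + 1) * ∑ p ∈ antidiagonal (n + 1), numU p.1 * hh (p.2 + 1)
      = ∑ p ∈ antidiagonal (n + 1), (p.1 : ℝ) * numU p.1 * hh (p.2 + 1)
        + ∑ p ∈ antidiagonal (n + 1), numU p.1 * ((p.2 : ℝ) * hh (p.2 + 1)) := by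
    rw [mul_sum, ← sum_add_distrib]
    refine sum_congr rfl fun p hp => ?_
    have h : (p.1 : ℝ) + p.2 = n + 1 := by exact_mod_cast mem_antidiagonal.1 hp
    rw [← h]
    ring
  rw [h1, Finset.Nat.sum_antidiagonal_succ, Finset.Nat.sum_antidiagonal_succ', mul_sum]
  simp only [Nat.cast_zero, zero_mul, mul_zero, zero_add]
  rw [← sum_add_distrib]
  refine sum_congr rfl fun p hp => ?_
  have h : (p.1 : ℝ) + p.2 = n := by exact_mod_cast mem_antidiagonal.1 hp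
  push_cast
  rw [num_u_succ, num_v_succ, ← h]
  ring

theorem num_conv_zero (n : ℕ) :
    ∑ p ∈ antidiagonal (n + 1), numU p.1 * hh (p.2 + 1) = 0 := by
  induction n with
  | zero =>
    have h := num_conv 0
    simpa using h
  | succ n ih =>
    have h := num_conv (n + 1)
    rw [ih, mul_zero] at h
    exact (mul_eq_zero.1 h).resolve_left (by positivity)

theorem hh_harm (L : ℕ) :
    2 / 3 * hh (L + 2) + 1 / 4 * ∑ j ∈ range (L + 1), w j * hh (L - j) = hh (L + 1) := by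
  have h := num_conv_zero L
  rw [Finset.Nat.sum_antidiagonal_succ] at h
  rw [sum_range_succ, Nat.sub_self, hh_zero, mul_zero, add_zero]
  rcases L with _ | L
  · simp only [Finset.Nat.antidiagonal_zero, sum_singleton] at h
    have e0 : numU 0 = 1 := rfl
    have e1 : numU (0 + 1) = -3 / 2 := rfl
    rw [e0, e1] at h
    simp only [range_zero, sum_empty]
    linarith
  · rw [Finset.Nat.sum_antidiagonal_succ,
      Finset.Nat.sum_antidiagonal_eq_sum_range_succ_mk] at h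
    have e0 : numU 0 = 1 := rfl
    have e1 : numU (0 + 1) = -3 / 2 := rfl
    have e2 : ∑ j ∈ range (L + 1), numU (j + 1 + 1) * hh (L - j + 1)
        = 3 / 8 * ∑ j ∈ range (L + 1), w j * hh (L + 1 - j) := by
      rw [mul_sum]
      refine sum_congr rfl fun j hj => ?_
      have hj' : j < L + 1 := mem_range.1 hj
      have e3 : L - j + 1 = L + 1 - j := by omega
      have e4 : numU (j + 1 + 1) = 3 / 8 * w j := rfl
      rw [e3, e4]
      ring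
    simp only [Nat.succ_eq_add_one] at h
    rw [e0, e1, e2] at h
    linarith

theorem hh_le (L : ℕ) : hh L ≤ √(L : ℝ) := by
  have hL : (0 : ℝ) ≤ L := Nat.cast_nonneg L
  have h := m1a_upper L
  refine Real.le_sqrt_of_sq_le ?_
  unfold hh
  have h2 : 0 ≤ m1a L ^ 2 := sq_nonneg _
  nlinarith [mul_le_mul_of_nonneg_left h hL, mul_nonneg hL h2, mul_nonneg (mul_nonneg hL hL) h2]

theorem le_hh (L : ℕ) : √(L : ℝ) ≤ 3 * hh L := by
  have hL : (0 : ℝ) ≤ L := Nat.cast_nonneg L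
  have h := m1a_lower L
  have hp := m1a_pos L
  refine Real.sqrt_le_iff.2 ⟨by unfold hh; positivity, ?_⟩
  unfold hh
  rcases Nat.eq_zero_or_pos L with h0 | h0
  · subst h0
    simp
  · have h1 : (1 : ℝ) ≤ L := by exact_mod_cast h0
    have h2 : 0 ≤ m1a L ^ 2 := sq_nonneg _
    have h3 : m1a L ^ 2 * (4 * L + 1) ≤ m1a L ^ 2 * (9 * L) :=
      mul_le_mul_of_nonneg_left (by linarith) h2
    have h4 := mul_le_mul_of_nonneg_left (h.trans h3) hL
    nlinarith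

theorem sq_sub : ∃ c : ℝ, 0 < c ∧ ∀ L : ℕ, ((L : ℝ) + 1) ^ 2 + c * √((L : ℝ) + 1) ≤
    2 / 3 * ((L : ℝ) + 2) ^ 2 + 1 / 4 * ∑ j ∈ range (L + 1), w j * ((L - j : ℕ) : ℝ) ^ 2 := by
  obtain ⟨c, C, hc, -, h⟩ := w_bounds
  refine ⟨c / 10, by positivity, fun L => ?_⟩
  have hL : (0 : ℝ) ≤ L := Nat.cast_nonneg L
  have h1 : ∑ j ∈ range (L + 1), (((L : ℝ) + 1) ^ 2 * w j - 2 * ((L : ℝ) + 1) * (((j : ℝ) + 1) * w j))
      ≤ ∑ j ∈ range (L + 1), w j * ((L - j : ℕ) : ℝ) ^ 2 := by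
    refine sum_le_sum fun j hj => ?_
    have hj' : j ≤ L := Nat.lt_succ_iff.1 (mem_range.1 hj)
    rw [Nat.cast_sub hj']
    have := mul_nonneg (w_pos j).le (sq_nonneg ((j : ℝ) + 1))
    nlinarith
  rw [sum_sub_distrib, ← mul_sum, ← mul_sum, sum_w, sum_jw] at h1
  have h2 := (h (L + 1)).1
  have hw := w_pos (L + 1)
  push_cast at h1 h2
  set m : ℝ := (L : ℝ) + 1 with hm
  set x := w (L + 1)
  have hm1 : 1 ≤ m := by linarith
  have h3 : √m ≤ √(m + 1) := Real.sqrt_le_sqrt (by linarith)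
  have h4 : √(m + 1) * √(m + 1) = m + 1 := Real.mul_self_sqrt (by linarith)
  have h5 : c * √m ≤ x * (m + 1) ^ 3 := by
    calc c * √m ≤ c * √(m + 1) := mul_le_mul_of_nonneg_left h3 hc.le
      _ ≤ x * ((m + 1) ^ 2 * √(m + 1)) * √(m + 1) :=
        mul_le_mul_of_nonneg_right h2 (Real.sqrt_nonneg _)
      _ = x * (m + 1) ^ 2 * (√(m + 1) * √(m + 1)) := by ring
      _ = x * (m + 1) ^ 3 := by rw [h4]; ring
  have h6 : (m + 1) ^ 3 ≤ (2 * m) ^ 3 := pow_le_pow_left₀ (by linarith) (by linarith) 3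
  have h7 : x * (m + 1) ^ 3 ≤ x * (2 * m) ^ 3 := mul_le_mul_of_nonneg_left h6 hw.le
  have h8 : 0 ≤ x * m := by positivity
  have h9 : 0 ≤ x * m ^ 2 := by positivity
  have h10 : 0 ≤ x * m ^ 3 := by positivity
  have e : (L : ℝ) + 2 = m + 1 := by rw [hm]; ring
  rw [e]
  nlinarith

theorem cLm_big {N L m : ℕ} (hN : 1 ≤ N) (h : N ≤ 4 * m) :
    cLm L m ≤ 96 * √(L : ℝ) / ((N : ℝ) ^ 2 * √(N : ℝ)) := by
  have hN0 : (0 : ℝ) < N := by exact_mod_cast hN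
  have hs : 0 < √(N : ℝ) := Real.sqrt_pos.2 hN0
  have hm : (N : ℝ) ≤ 4 * m := by exact_mod_cast h
  rcases Nat.eq_zero_or_pos L with h0 | h0
  · subst h0
    have h1 := cLm_exact 0 m
    simp only [Nat.cast_zero, add_zero, mul_zero, zero_mul] at h1
    have h2 : (0 : ℝ) < 2 * m * (2 * m + 1) := by
      have : (0 : ℝ) < m := by linarith
      positivity
    have h3 : cLm 0 m = 0 := (mul_eq_zero.1 h1).resolve_left h2.ne'
    rw [h3]
    positivity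
  · have h1 := cLm_le_pow L m h0
    have hL : (0 : ℝ) ≤ L := Nat.cast_nonneg L
    set x : ℝ := (m : ℝ) + L + 1 with hx
    have hx1 : (N : ℝ) ≤ 4 * x := by linarith
    have hx0 : 0 ≤ x := by linarith
    have h2 : √(N : ℝ) ≤ 2 * √x := by
      refine Real.sqrt_le_iff.2 ⟨by positivity, ?_⟩
      rw [mul_pow, Real.sq_sqrt hx0]
      linarith
    have h3 : (N : ℝ) ^ 2 ≤ (4 * x) ^ 2 := pow_le_pow_left₀ hN0.le hx1 2
    have h4 : (N : ℝ) ^ 2 * √(N : ℝ) ≤ (4 * x) ^ 2 * (2 * √x) :=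
      mul_le_mul h3 h2 hs.le (by positivity)
    rw [le_div_iff₀ (by positivity)]
    calc cLm L m * ((N : ℝ) ^ 2 * √(N : ℝ)) ≤ cLm L m * ((4 * x) ^ 2 * (2 * √x)) :=
          mul_le_mul_of_nonneg_left h4 (cLm_nonneg L m)
      _ = 32 * (cLm L m * (x ^ 2 * √x)) := by ring
      _ ≤ 96 * √(L : ℝ) := by linarith

theorem cLm_two : ∃ c : ℝ, 0 < c ∧ ∀ N : ℕ, 1 ≤ N →
    c / ((N : ℝ) ^ 2 * √(N : ℝ)) ≤ cLm 2 N := by
  refine ⟨√(Real.exp (-(9 / 4)) / 51200), Real.sqrt_pos.2 (by positivity), fun N hN => ?_⟩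
  have hN1 : (1 : ℝ) ≤ N := by exact_mod_cast hN
  have hN0 : (0 : ℝ) < N := by linarith
  have hs : 0 < √(N : ℝ) := Real.sqrt_pos.2 hN0
  have h1 := cLm_lower 2 N (by norm_num)
  have hc := cLm_nonneg 2 N
  rw [div_le_iff₀ (by positivity)]
  refine Real.sqrt_le_iff.2 ⟨by positivity, ?_⟩
  have h2 : Real.exp (-(9 / 4)) ≤ Real.exp (-((((2 : ℕ) : ℝ) + 1) ^ 2 / (2 * (N + 1)))) := by
    refine Real.exp_le_exp.2 (neg_le_neg ?_)
    rw [div_le_iff₀ (by positivity)]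
    push_cast
    linarith
  have h3 : ((N : ℝ) + (2 : ℕ) + 1) ^ 5 ≤ (4 * N) ^ 5 :=
    pow_le_pow_left₀ (by positivity) (by push_cast; linarith) 5
  have h4 : cLm 2 N ^ 2 * ((N : ℝ) + (2 : ℕ) + 1) ^ 5 ≤ cLm 2 N ^ 2 * (4 * N) ^ 5 :=
    mul_le_mul_of_nonneg_left h3 (sq_nonneg _)
  have h5 : (cLm 2 N * ((N : ℝ) ^ 2 * √(N : ℝ))) ^ 2 = cLm 2 N ^ 2 * (N : ℝ) ^ 5 := by
    rw [mul_pow, mul_pow, Real.sq_sqrt hN0.le]
    ring
  rw [h5]
  have h6 : ((2 : ℕ) : ℝ) / 100 * Real.exp (-(9 / 4))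
      ≤ ((2 : ℕ) : ℝ) / 100 * Real.exp (-((((2 : ℕ) : ℝ) + 1) ^ 2 / (2 * (N + 1)))) :=
    mul_le_mul_of_nonneg_left h2 (by positivity)
  have h7 := h6.trans (h1.trans h4)
  push_cast at h7
  nlinarith

end Pool.Agent.QL.NT
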