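import Pool.Agent.P.MP_7a6434d8_pr.QL.NT.Rec
import Pool.Agent.P.MP_7a6434d8_pr.JumpNum

/-! Tails of the jump law, swallowed volume, the quadratic potential. -/

open MeasureTheory ProbabilityTheory Filter Finset
open scoped ENNReal

namespace Pool.Agent.QL.NT

open Pool.Agent.P.MP_7a6434d8_pr Mp

theorem w_tail : ∃ c C : ℝ, 0 < c ∧ 0 < C ∧ ∀ j : ℕ, 1 ≤ j →
    c / (j * √(j : ℝ)) ≤ 4 / 3 - ∑ i ∈ range j, w i ∧
    4 / 3 - ∑ i ∈ range j, w i ≤ C / (j * √(j : ℝ)) ∧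
    0 ≤ 8 / 3 - ∑ i ∈ range j, ((i : ℝ) + 1) * w i ∧
    8 / 3 - ∑ i ∈ range j, ((i : ℝ) + 1) * w i ≤ C / √(j : ℝ) ∧
    ∑ i ∈ range j, ((i : ℝ) + 1) ^ 2 * w i ≤ C * √(j : ℝ) := by
  obtain ⟨c, C, hc, hC, h⟩ := w_bounds
  refine ⟨c / 6, 3 * C, by positivity, by positivity, fun j hj => ?_⟩
  obtain ⟨h1, h2⟩ := h j
  have hj' : (1 : ℝ) ≤ j := by exact_mod_cast hj
  have hw := w_pos j
  have hs : 0 < √(j : ℝ) := Real.sqrt_pos.2 (by linarith)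
  have hst : √(j : ℝ) ≤ √((j : ℝ) + 1) := Real.sqrt_le_sqrt (by linarith)
  have hts : √((j : ℝ) + 1) ≤ 2 * √(j : ℝ) := by
    rw [Real.sqrt_le_iff]
    refine ⟨by positivity, ?_⟩
    rw [mul_pow, Real.sq_sqrt (by linarith)]
    linarith
  have h3 := jumpnum_sq_sum hC (fun L => (h L).2) j
  have h4 : w j * (((j : ℝ) + 1) ^ 2 * √(j : ℝ)) ≤ C := le_trans (by gcongr) h2
  have h5 : c ≤ w j * (((j : ℝ) + 1) ^ 2 * (2 * √(j : ℝ))) := h1.trans (by gcongr)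
  have hp : 0 < w j * √(j : ℝ) := mul_pos hw hs
  rw [sum_w, sum_jw, sub_sub_cancel, sub_sub_cancel]
  refine ⟨?_, ?_, by positivity, ?_, h3.trans (by gcongr; norm_num)⟩
  · rw [div_le_iff₀ (by positivity)]
    have h6 : ((j : ℝ) + 1) ^ 2 ≤ (2 * j + 4) * j := by nlinarith
    have h7 := mul_le_mul_of_nonneg_right h6 hp.le
    nlinarith
  · rw [le_div_iff₀ (by positivity)]
    have h6 : (2 * j + 4) * j ≤ 2 * ((j : ℝ) + 1) ^ 2 := by nlinarith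
    have h7 := mul_le_mul_of_nonneg_right h6 hp.le
    nlinarith
  · rw [le_div_iff₀ hs]
    have h6 : 2 * (j : ℝ) ^ 2 + 16 * j / 3 + 8 / 3 ≤ 3 * ((j : ℝ) + 1) ^ 2 := by nlinarith
    have h7 := mul_le_mul_of_nonneg_right h6 hp.le
    nlinarith

theorem sum_w_le (J : ℕ) : ∑ i ∈ range J, w i ≤ 4 / 3 := by
  have hw := w_pos J
  rw [sum_w]
  exact sub_le_self _ (by positivity)

theorem num2_cLm_nonneg (j y : ℕ) : 0 ≤ cLm j y := by unfold cLm; positivity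

theorem volmin : ∃ C : ℝ, 0 < C ∧ ∀ V : ℝ, 1 ≤ V → ∀ J M : ℕ,
    ∑ j ∈ range J, ∑ y ∈ range M, cLm j y * min 1 ((y : ℝ) / V) ≤ C / (√V * √(√V)) := by
  obtain ⟨c, C, -, hC, h⟩ := w_tail
  refine ⟨3 * C, by positivity, fun V hV J M => ?_⟩
  have hV0 : 0 < V := by linarith
  have hr : 1 ≤ √V := Real.one_le_sqrt.2 hV
  have hq : 1 ≤ √(√V) := Real.one_le_sqrt.2 hr
  have hrr : √V * √V = V := Real.mul_self_sqrt hV0.le
  have hqq : √(√V) * √(√V) = √V := Real.mul_self_sqrt (by linarith)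
  set J₀ := ⌈√V⌉₊ with hJ
  have h1 : √V ≤ J₀ := Nat.le_ceil _
  have h2 : (J₀ : ℝ) < √V + 1 := Nat.ceil_lt_add_one (by linarith)
  have h3 : 1 ≤ J₀ := by exact_mod_cast hr.trans h1
  obtain ⟨-, h4, -, -, h5⟩ := h J₀ h3
  have h6 : √(√V) ≤ √(J₀ : ℝ) := Real.sqrt_le_sqrt h1
  have h7 : √(J₀ : ℝ) ≤ 2 * √(√V) := by
    rw [Real.sqrt_le_iff]
    exact ⟨by positivity, by nlinarith⟩
  have g0 : ∀ j, 0 ≤ ∑ y ∈ range M, cLm j y * min 1 ((y : ℝ) / V) := fun j =>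
    sum_nonneg fun y _ => mul_nonneg (num2_cLm_nonneg j y) (le_min zero_le_one (by positivity))
  have g1 : ∀ j, ∑ y ∈ range M, cLm j y * min 1 ((y : ℝ) / V) ≤ w j := fun j =>
    (sum_le_sum fun y _ => mul_le_of_le_one_right (num2_cLm_nonneg j y) (min_le_left _ _)).trans
      (sum_cLm j M)
  have g2 : ∀ j : ℕ, ∑ y ∈ range M, cLm j y * min 1 ((y : ℝ) / V) ≤
      ((j : ℝ) + 1) ^ 2 * w j / V := fun j => by
    calc _ ≤ ∑ y ∈ range M, cLm j y * y / V := sum_le_sum fun y _ => by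
          rw [mul_div_assoc]
          exact mul_le_mul_of_nonneg_left (min_le_right _ _) (num2_cLm_nonneg j y)
      _ ≤ (j : ℝ) * (j + 1) / 2 * w j / V := by
          rw [← sum_div]
          exact div_le_div_of_nonneg_right (sum_cLm_mul j M) hV0.le
      _ ≤ _ := by
          have := w_pos j
          have hj : (0 : ℝ) ≤ j := j.cast_nonneg
          gcongr
          nlinarith
  have h8 := sum_w_le (J₀ + J)
  rw [sum_range_add] at h8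
  calc _ ≤ ∑ j ∈ range (J₀ + J), ∑ y ∈ range M, cLm j y * min 1 ((y : ℝ) / V) :=
        sum_le_sum_of_subset_of_nonneg (range_mono (Nat.le_add_left _ _)) fun j _ _ => g0 j
    _ ≤ (∑ j ∈ range J₀, ((j : ℝ) + 1) ^ 2 * w j) / V + ∑ j ∈ range J, w (J₀ + j) := by
        rw [sum_range_add, sum_div]
        exact add_le_add (sum_le_sum fun j _ => g2 j) (sum_le_sum fun j _ => g1 _)
    _ ≤ C * (2 * √(√V)) / V + C / (√V * √(√V)) := by
        refine add_le_add ?_ (le_trans (by linarith) (h4.trans ?_))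
        · gcongr
          exact h5.trans (by gcongr)
        · gcongr
    _ = _ := by
        have e : C * (2 * √(√V)) / V = 2 * C / (√V * √(√V)) := by
          rw [div_eq_div_iff hV0.ne' (by positivity)]
          calc _ = 2 * C * (√V * (√(√V) * √(√V))) := by ring
            _ = _ := by rw [hqq, hrr]
        rw [e]
        ring

theorem ph2_num : ∃ c C : ℝ, 0 < c ∧ 0 < C ∧ ∀ (L₀ j₀ : ℕ) (x f : ℝ), 1 ≤ j₀ → j₀ ≤ L₀ →
    |x - L₀| ≤ L₀ / 2 → 0 ≤ f →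
    2 / 3 * (f + (2 * (x + 1 - L₀) / L₀) ^ 2) +
      1 / 4 * ∑ j ∈ range j₀, w j * (f + (2 * (x - 1 - j - L₀) / L₀) ^ 2) +
      c * f / (j₀ * √(j₀ : ℝ)) ≤ f + (2 * (x - L₀) / L₀) ^ 2 + C / (L₀ * √(j₀ : ℝ)) := by
  obtain ⟨c, C, hc, hC, h⟩ := w_tail
  refine ⟨c / 4, 2 * C + 3, by positivity, by positivity, fun L₀ j₀ x f hj hL hx hf => ?_⟩
  obtain ⟨h1, -, h3, h4, h5⟩ := h j₀ hj
  have hj' : (1 : ℝ) ≤ j₀ := by exact_mod_cast hj
  have hL' : (j₀ : ℝ) ≤ L₀ := by exact_mod_cast hL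
  have hL0 : (0 : ℝ) < L₀ := by linarith
  have hs : 1 ≤ √(j₀ : ℝ) := Real.one_le_sqrt.2 hj'
  have hss : √(j₀ : ℝ) * √(j₀ : ℝ) = j₀ := Real.mul_self_sqrt (by linarith)
  obtain ⟨a, ha⟩ : ∃ a : ℝ, a = 2 * (x - L₀) / L₀ := ⟨_, rfl⟩
  obtain ⟨d, hd⟩ : ∃ d : ℝ, d = 1 / L₀ := ⟨_, rfl⟩
  have hd0 : 0 < d := by rw [hd]; positivity
  have ha1 : a ≤ 1 := by
    rw [ha, div_le_one hL0]
    linarith [(abs_le.1 hx).2]
  have e1 : 2 * (x + 1 - L₀) / L₀ = a + 2 * d := by rw [ha, hd]; ring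
  have e2 : ∀ j : ℕ, w j * (f + (2 * (x - 1 - j - L₀) / L₀) ^ 2) =
      (f + a ^ 2) * w j - 4 * a * d * (((j : ℝ) + 1) * w j) +
        4 * d ^ 2 * (((j : ℝ) + 1) ^ 2 * w j) := fun j => by
    rw [ha, hd]; ring
  simp only [e2]
  rw [sum_add_distrib, sum_sub_distrib, ← mul_sum, ← mul_sum, ← mul_sum, e1, ← ha]
  generalize ∑ i ∈ range j₀, w i = S0 at *
  generalize ∑ i ∈ range j₀, ((i : ℝ) + 1) * w i = S1 at *
  generalize ∑ i ∈ range j₀, ((i : ℝ) + 1) ^ 2 * w i = S2 at *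
  generalize √(j₀ : ℝ) = s at *
  have hs0 : 0 < s := by linarith
  obtain ⟨u, hu⟩ : ∃ u : ℝ, u = d / s := ⟨_, rfl⟩
  have hu0 : 0 < u := by rw [hu]; positivity
  have e3 : (2 * C + 3) / (L₀ * s) = (2 * C + 3) * u := by rw [hu, hd]; field_simp
  have e4 : c / 4 * f / (j₀ * s) = f / 4 * (c / (j₀ * s)) := by ring
  have h6 : 0 ≤ 4 / 3 - S0 := le_trans (by positivity) h1
  have h7 : f / 4 * (c / (j₀ * s)) ≤ f / 4 * (4 / 3 - S0) := by gcongr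
  have h8 : a * d * (8 / 3 - S1) ≤ C * u := by
    calc _ ≤ 1 * d * (C / s) := by gcongr
      _ = _ := by rw [hu]; ring
  have h9 : d ^ 2 * s ≤ u := by
    rw [hu, le_div_iff₀ hs0, mul_assoc, hss, pow_two, mul_assoc]
    refine mul_le_of_le_one_right hd0.le ?_
    rw [hd, one_div, inv_mul_le_iff₀ hL0]
    linarith
  have h10 : d ^ 2 ≤ u := (le_mul_of_one_le_right (by positivity) hs).trans h9
  have h11 : d ^ 2 * S2 ≤ C * u := by
    calc _ ≤ d ^ 2 * (C * s) := by gcongr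
      _ = C * (d ^ 2 * s) := by ring
      _ ≤ _ := by gcongr
  have h12 := mul_nonneg (sq_nonneg a) h6
  rw [e3, e4]
  nlinarith

end Pool.Agent.QL.NT
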