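import Pool.Agent.P.MP_7a6434d8_pr.QL.NT.Sub
import Pool.Agent.P.MP_7a6434d8_pr.QL.NT.Num
import Pool.Agent.P.MP_7a6434d8_pr.QL.NT.Num2

/-! Second phase: up to the first medium jump. -/

open MeasureTheory ProbabilityTheory Filter Finset
open scoped ENNReal

namespace Pool.Agent.QL.NT

open Pool.Agent.P.MP_7a6434d8_pr Mp

/-- the functional read at the end of the second phase -/
noncomputable def ph2G (L₀ m V : ℕ) (χ : Mp → ℝ) (s : Mp) : ℝ :=
  if L₀ ≤ 4 * per s ∧ per s ≤ 2 * L₀ ∧ m ≤ size s + V then χ s else 1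

theorem ph2G_bd (L₀ m V : ℕ) {χ : Mp → ℝ} (hχ : ∀ s, 0 ≤ χ s ∧ χ s ≤ 1) (s : Mp) :
    0 ≤ ph2G L₀ m V χ s ∧ ph2G L₀ m V χ s ≤ 1 := by
  unfold ph2G
  split_ifs
  · exact hχ s
  · norm_num

theorem ph2_min_add (a b : ℝ) (ha : 0 ≤ a) (hb : 0 ≤ b) : min 1 (a + b) ≤ min 1 a + min 1 b := by
  rcases le_total 1 a with h | h
  · rw [min_eq_left h]
    have := min_le_left 1 (a + b)
    have h2 : 0 ≤ min 1 b := le_min zero_le_one hb
    linarith
  · rcases le_total 1 b with h' | h'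
    · rw [min_eq_left h']
      have := min_le_left 1 (a + b)
      have h2 : 0 ≤ min 1 a := le_min zero_le_one ha
      linarith
    · rw [min_eq_right h, min_eq_right h']
      exact min_le_right _ _

theorem ph2_dom_sum {χ : Mp → ℝ} {β : ℝ} {i : ℕ} (hχ : ∀ s, 0 ≤ χ s) (h : Dom χ β i) (m' : ℕ) :
    ∑ y ∈ range (m' / 2 + 1), nS i (m' - y) χ ≤ β * w i := by
  have h1 : ∑ y ∈ range (m' / 2 + 1), nS i (m' - y) χ ≤ ∑ y ∈ range (m' + 1), nS i (m' - y) χ :=
    sum_le_sum_of_subset_of_nonneg (range_subset_range.2 (by omega)) fun _ _ _ => nS_nonneg hχ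
  have h2 := sum_range_reflect (fun y => nS i y χ) (m' + 1)
  simp only [Nat.add_sub_cancel] at h2
  rw [h2] at h1
  exact h1.trans (h _)

theorem ph2_tail (L j₁ : ℕ) :
    ∑ j ∈ range L, (if j₁ ≤ j then w j else 0) ≤ 4 / 3 - ∑ i ∈ range j₁, w i := by
  have h1 : ∑ j ∈ range L, (if j₁ ≤ j then w j else 0)
      ≤ ∑ j ∈ range (L + j₁), (if j₁ ≤ j then w j else 0) :=
    sum_le_sum_of_subset_of_nonneg (range_subset_range.2 (by omega)) fun j _ _ => by
      split_ifs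
      · exact (w_pos j).le
      · exact le_rfl
  have h2 : ∑ i ∈ range j₁, w i = ∑ j ∈ range (L + j₁), (if j < j₁ then w j else 0) := by
    rw [← sum_filter]
    congr 1
    ext j
    simp only [mem_range, mem_filter]
    omega
  have h3 : ∑ j ∈ range (L + j₁), (if j₁ ≤ j then w j else 0)
      + ∑ j ∈ range (L + j₁), (if j < j₁ then w j else 0) = ∑ j ∈ range (L + j₁), w j := by
    rw [← sum_add_distrib]
    refine sum_congr rfl fun j _ => ?_
    by_cases h : j₁ ≤ j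
    · rw [if_pos h, if_neg (by omega), add_zero]
    · rw [if_neg h, if_pos (by omega), zero_add]
  have h4 := sum_w_le (L + j₁)
  linarith

theorem ph2_head (L j₀ : ℕ) (u : ℕ → ℝ) (hu : ∀ j, 0 ≤ u j) :
    ∑ j ∈ range L, (if j < j₀ then u j else 0) ≤ ∑ j ∈ range j₀, u j := by
  rw [← sum_filter]
  refine sum_le_sum_of_subset_of_nonneg (fun j hj => ?_) fun j _ _ => hu j
  exact mem_range.2 (mem_filter.1 hj).2

theorem ph2_core (L₀ j₀ m V : ℕ) (χ : Mp → ℝ) (β M f g c1 W τ ev : ℝ)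
    (hL₀ : 16 ≤ L₀) (hV : 1 ≤ V) (hVm : 4 * V ≤ m)
    (hχ : ∀ s, 0 ≤ χ s ∧ χ s ≤ 1) (hβ : 0 ≤ β)
    (hdom : ∀ i : ℕ, L₀ ≤ 4 * i → i ≤ 2 * L₀ → Dom χ β i)
    (hf : 0 ≤ f) (hM0 : 0 ≤ M) (hc1 : 0 ≤ c1) (hW : 0 ≤ W)
    (hM : ∀ L m', L ≤ 2 * L₀ → m ≤ 4 * m' → cLm L m' ≤ M)
    (hc : ∀ j y, j₀ ≤ j → cLm j y ≤ c1)
    (hw : ∀ i, L₀ ≤ 4 * i → w i ≤ W)
    (hτ : 4 / 3 - ∑ i ∈ range (L₀ / 8), w i ≤ τ)
    (hev : ∀ J N : ℕ, ∑ j ∈ range J, ∑ y ∈ range N, cLm j y * min 1 ((y : ℝ) / V) ≤ ev)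
    (hnum : ∀ x : ℝ, |x - L₀| ≤ L₀ / 2 →
      2 / 3 * (f + (2 * (x + 1 - L₀) / L₀) ^ 2) +
        1 / 4 * ∑ j ∈ range j₀, w j * (f + (2 * (x - 1 - j - L₀) / L₀) ^ 2) + g
        ≤ f + (2 * (x - L₀) / L₀) ^ 2)
    (hg : M * (1 / V + ev + τ) + L₀ * c1 * W * β ≤ M * g) (n : ℕ) :
    ∀ L m' : ℕ, 2 * m' + L < n → L ≤ 2 * L₀ → m ≤ 4 * m' → m' ≤ m →
      nS L m' (fun t => ph2G L₀ m V χ (ex2 L₀ j₀ t)) ≤
        M * (f + (2 * ((L : ℝ) - L₀) / L₀) ^ 2 + min 1 (((m : ℝ) - m') / V)) := by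
  have hG := ph2G_bd L₀ m V hχ
  have hVr : (1 : ℝ) ≤ V := by exact_mod_cast hV
  have hV0 : (0 : ℝ) < V := by linarith
  have hLr : (16 : ℝ) ≤ L₀ := by exact_mod_cast hL₀
  have hL0 : (0 : ℝ) < L₀ := by linarith
  have hev0 : 0 ≤ ev := by simpa using hev 0 0
  have hτ0 : 0 ≤ τ := by
    have := sum_w_le (L₀ / 8)
    linarith
  induction n with
  | zero => intro L m' h; omega
  | succ n ih =>
  intro L m' hn hL hm1 hm2
  have hm2r : (m' : ℝ) ≤ m := by exact_mod_cast hm2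
  have hφ0 : 0 ≤ ((m : ℝ) - m') / V := div_nonneg (by linarith) hV0.le
  have hφ1 : 0 ≤ min 1 (((m : ℝ) - m') / V) := le_min zero_le_one hφ0
  have htriv : nS L m' (fun t => ph2G L₀ m V χ (ex2 L₀ j₀ t)) ≤ M :=
    (nS_le fun t => (hG _).2).trans (hM L m' hL hm1)
  by_cases hA : m' + V ≤ m
  · have h1 : 1 ≤ ((m : ℝ) - m') / V := by
      rw [le_div_iff₀ hV0]
      have : (m' : ℝ) + V ≤ m := by exact_mod_cast hA
      linarith
    rw [min_eq_left h1]
    refine htriv.trans (le_mul_of_one_le_right hM0 ?_)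
    have := sq_nonneg (2 * ((L : ℝ) - L₀) / L₀)
    linarith
  by_cases hB : 2 * L ≤ L₀ ∨ 3 * L₀ ≤ 2 * L
  · refine htriv.trans (le_mul_of_one_le_right hM0 ?_)
    have h1 : 1 ≤ (2 * ((L : ℝ) - L₀) / L₀) ^ 2 := by
      rw [div_pow, le_div_iff₀ (by positivity)]
      rcases hB with h | h
      · have : 2 * (L : ℝ) ≤ L₀ := by exact_mod_cast h
        nlinarith
      · have : 3 * (L₀ : ℝ) ≤ 2 * L := by exact_mod_cast h
        nlinarith
    linarith
  obtain ⟨K, rfl⟩ : ∃ K, L = K + 1 := ⟨L - 1, by omega⟩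
  have hstep := ex_step (fun _ => False) (fun L => 2 * L < L₀ ∨ 3 * L₀ < 2 * L)
    (fun j => j₀ ≤ j) (ph2G L₀ m V χ) (fun s => (hG s).1) K m' (by omega) (fun h => h) (by omega)
  change nS (K + 1) m' (fun t => ph2G L₀ m V χ (ex2 L₀ j₀ t)) ≤
    2 / 3 * nS (K + 2) (m' - 1) (fun t => ph2G L₀ m V χ (ex2 L₀ j₀ t)) + _ at hstep
  set φ : ℝ := min 1 (((m : ℝ) - m') / V) with hφ
  have hφy : ∀ y : ℕ, y ≤ m' → min 1 (((m : ℝ) - (m' - y : ℕ)) / V) ≤ φ + min 1 ((y : ℝ) / V) := by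
    intro y hy
    rw [Nat.cast_sub hy]
    have : ((m : ℝ) - (m' - y)) / V = ((m : ℝ) - m') / V + y / V := by ring
    rw [this]
    exact ph2_min_add _ _ hφ0 (by positivity)
  set x : ℝ := ((K + 1 : ℕ) : ℝ) with hx
  have hxK : x = K + 1 := by rw [hx]; push_cast; ring
  have hx1 : |x - L₀| ≤ L₀ / 2 := by
    have h1 : L₀ ≤ 2 * (K + 1) := by omega
    have h2 : 2 * (K + 1) ≤ 3 * L₀ := by omega
    have h1' : (L₀ : ℝ) ≤ 2 * (K + 1) := by exact_mod_cast h1
    have h2' : 2 * ((K : ℝ) + 1) ≤ 3 * L₀ := by exact_mod_cast h2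
    rw [abs_le, hxK]
    constructor <;> linarith
  -- first term
  have t1 : nS (K + 2) (m' - 1) (fun t => ph2G L₀ m V χ (ex2 L₀ j₀ t)) ≤
      M * (f + (2 * (x + 1 - L₀) / L₀) ^ 2 + φ + 1 / V) := by
    refine (ih (K + 2) (m' - 1) (by omega) (by omega) (by omega) (by omega)).trans ?_
    have h1 := hφy 1 (by omega)
    have h2 : min 1 (((1 : ℕ) : ℝ) / V) ≤ 1 / V := by
      rw [Nat.cast_one]
      exact min_le_right _ _
    have h3 : ((K + 2 : ℕ) : ℝ) = x + 1 := by rw [hxK]; push_cast; ring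
    rw [h3]
    apply mul_le_mul_of_nonneg_left _ hM0
    linarith
  -- jumps
  have t2 : ∀ j ∈ range (K + 1), ∑ y ∈ range (m' / 2 + 1), cLm j y *
      (@ite _ ((fun j => j₀ ≤ j) j) (Classical.propDecidable _)
        (nS (K - j) (m' - y) (ph2G L₀ m V χ))
        (nS (K - j) (m' - y) fun t => ph2G L₀ m V χ (ex2 L₀ j₀ t))) ≤
      M * φ * w j + M * ∑ y ∈ range (m' / 2 + 1), cLm j y * min 1 ((y : ℝ) / V)
        + M * (if j < j₀ then w j * (f + (2 * (x - 1 - j - L₀) / L₀) ^ 2) else 0)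
        + c1 * W * β + M * (if L₀ / 8 ≤ j then w j else 0) := by
    intro j hj
    have hjK : j ≤ K := Nat.lt_succ_iff.1 (mem_range.1 hj)
    have hs := sum_cLm j (m' / 2 + 1)
    have hwj := (w_pos j).le
    have hite : 0 ≤ M * (if L₀ / 8 ≤ j then w j else 0) := by
      apply mul_nonneg hM0
      split_ifs
      · exact hwj
      · exact le_rfl
    have hcW : 0 ≤ c1 * W * β := by positivity
    have hs2 : 0 ≤ M * ∑ y ∈ range (m' / 2 + 1), cLm j y * min 1 ((y : ℝ) / V) :=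
      mul_nonneg hM0 (sum_nonneg fun y _ => mul_nonneg (cLm_nonneg _ _)
        (le_min zero_le_one (by positivity)))
    by_cases hj0 : j < j₀
    · rw [if_pos hj0]
      have hψ : 0 ≤ f + (2 * (x - 1 - j - L₀) / L₀) ^ 2 := by positivity
      have h1 : ∑ y ∈ range (m' / 2 + 1), cLm j y *
          (@ite _ ((fun j => j₀ ≤ j) j) (Classical.propDecidable _)
            (nS (K - j) (m' - y) (ph2G L₀ m V χ))
            (nS (K - j) (m' - y) fun t => ph2G L₀ m V χ (ex2 L₀ j₀ t))) ≤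
          ∑ y ∈ range (m' / 2 + 1), (cLm j y * (M * (f + (2 * (x - 1 - j - L₀) / L₀) ^ 2 + φ))
            + M * (cLm j y * min 1 ((y : ℝ) / V))) := by
        refine sum_le_sum fun y hy => ?_
        have hy' := mem_range.1 hy
        rw [if_neg (by omega : ¬ j₀ ≤ j)]
        have h2 := ih (K - j) (m' - y) (by omega) (by omega) (by omega) (by omega)
        have h3 : ((K - j : ℕ) : ℝ) = x - 1 - j := by rw [Nat.cast_sub hjK, hxK]; ring
        rw [h3] at h2
        have h4 := hφy y (by omega)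
        have h5 : nS (K - j) (m' - y) (fun t => ph2G L₀ m V χ (ex2 L₀ j₀ t)) ≤
            M * (f + (2 * (x - 1 - j - L₀) / L₀) ^ 2 + φ + min 1 ((y : ℝ) / V)) :=
          h2.trans (mul_le_mul_of_nonneg_left (by linarith) hM0)
        have h6 := mul_le_mul_of_nonneg_left h5 (cLm_nonneg j y)
        linarith
      rw [sum_add_distrib, ← sum_mul, ← mul_sum] at h1
      have h7 := mul_le_mul_of_nonneg_right hs
        (show 0 ≤ M * (f + (2 * (x - 1 - j - L₀) / L₀) ^ 2 + φ) by positivity)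
      linarith
    · rw [if_neg hj0]
      have hj1 : j₀ ≤ j := by omega
      by_cases hK : L₀ ≤ 4 * (K - j)
      · have h1 : ∑ y ∈ range (m' / 2 + 1), cLm j y *
            (@ite _ ((fun j => j₀ ≤ j) j) (Classical.propDecidable _)
              (nS (K - j) (m' - y) (ph2G L₀ m V χ))
              (nS (K - j) (m' - y) fun t => ph2G L₀ m V χ (ex2 L₀ j₀ t))) ≤
            ∑ y ∈ range (m' / 2 + 1), (cLm j y * (M * φ)
              + M * (cLm j y * min 1 ((y : ℝ) / V)) + c1 * nS (K - j) (m' - y) χ) := by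
          refine sum_le_sum fun y hy => ?_
          have hy' := mem_range.1 hy
          rw [if_pos hj1]
          have h4 := hφy y (by omega)
          have hχ0 : 0 ≤ nS (K - j) (m' - y) χ := nS_nonneg fun s => (hχ s).1
          have h5 : nS (K - j) (m' - y) (ph2G L₀ m V χ) ≤
              M * (φ + min 1 ((y : ℝ) / V)) + nS (K - j) (m' - y) χ := by
            by_cases hC : m ≤ m' - y + V
            · have h6 : nS (K - j) (m' - y) (ph2G L₀ m V χ) ≤ nS (K - j) (m' - y) χ := by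
                refine nS_mono fun t _ hp hs => ?_
                unfold ph2G
                rw [if_pos ⟨by omega, by omega, by omega⟩]
              have h7 : 0 ≤ M * (φ + min 1 ((y : ℝ) / V)) :=
                mul_nonneg hM0 (add_nonneg hφ1 (le_min zero_le_one (by positivity)))
              linarith
            · have h6 : 1 ≤ ((m : ℝ) - (m' - y : ℕ)) / V := by
                rw [le_div_iff₀ hV0]
                have h : m' - y + V ≤ m := by omega
                have h' : ((m' - y : ℕ) : ℝ) + V ≤ m := by exact_mod_cast h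
                linarith
              rw [min_eq_left h6] at h4
              have h7 : nS (K - j) (m' - y) (ph2G L₀ m V χ) ≤ M :=
                (nS_le fun t => (hG t).2).trans (hM _ _ (by omega) (by omega))
              have h8 := le_mul_of_one_le_right hM0 h4
              linarith
          have h6 := mul_le_mul_of_nonneg_left h5 (cLm_nonneg j y)
          have h7 := mul_le_mul_of_nonneg_right (hc j y hj1) hχ0
          linarith
        rw [sum_add_distrib, sum_add_distrib, ← sum_mul, ← mul_sum, ← mul_sum] at h1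
        have h7 := mul_le_mul_of_nonneg_right hs (show 0 ≤ M * φ by positivity)
        have h8 := ph2_dom_sum (fun s => (hχ s).1) (hdom (K - j) hK (by omega)) m'
        have h9 : β * w (K - j) ≤ β * W := mul_le_mul_of_nonneg_left (hw _ hK) hβ
        have h10 := mul_le_mul_of_nonneg_left (h8.trans h9) hc1
        linarith
      · rw [if_pos (by omega : L₀ / 8 ≤ j)]
        have h1 : ∑ y ∈ range (m' / 2 + 1), cLm j y *
            (@ite _ ((fun j => j₀ ≤ j) j) (Classical.propDecidable _)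
              (nS (K - j) (m' - y) (ph2G L₀ m V χ))
              (nS (K - j) (m' - y) fun t => ph2G L₀ m V χ (ex2 L₀ j₀ t))) ≤
            ∑ y ∈ range (m' / 2 + 1), cLm j y * M := by
          refine sum_le_sum fun y hy => ?_
          have hy' := mem_range.1 hy
          rw [if_pos hj1]
          exact mul_le_mul_of_nonneg_left
            ((nS_le fun t => (hG t).2).trans (hM _ _ (by omega) (by omega))) (cLm_nonneg j y)
        rw [← sum_mul] at h1
        have h7 := mul_le_mul_of_nonneg_right hs hM0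
        have h8 : 0 ≤ M * φ * w j := by positivity
        linarith
  have t3 := sum_le_sum t2
  rw [sum_add_distrib, sum_add_distrib, sum_add_distrib, sum_add_distrib, ← mul_sum, ← mul_sum,
    ← mul_sum, ← mul_sum, sum_const, card_range, nsmul_eq_mul, ← mul_sum] at t3
  have u1 := mul_le_mul_of_nonneg_left (sum_w_le (K + 1)) (show 0 ≤ M * φ by positivity)
  have u2 := mul_le_mul_of_nonneg_left (hev (K + 1) (m' / 2 + 1)) hM0
  have u3 := mul_le_mul_of_nonneg_left (ph2_head (K + 1) j₀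
    (fun j => w j * (f + (2 * (x - 1 - j - L₀) / L₀) ^ 2))
    (fun j => mul_nonneg (w_pos j).le (by positivity))) hM0
  have u4 : ((K + 1 : ℕ) : ℝ) * (c1 * W * β) ≤ 2 * L₀ * (c1 * W * β) := by
    apply mul_le_mul_of_nonneg_right _ (by positivity)
    exact_mod_cast hL
  have u5 := mul_le_mul_of_nonneg_left ((ph2_tail (K + 1) (L₀ / 8)).trans hτ) hM0
  have u6 := mul_le_mul_of_nonneg_left (hnum x hx1) hM0
  have u7 : 0 ≤ M * (1 / V) := by positivity
  have u8 : 0 ≤ M * ev := by positivity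
  have u9 : 0 ≤ M * τ := by positivity
  have u10 : 0 ≤ L₀ * c1 * W * β := by positivity
  refine hstep.trans ?_
  change 2 / 3 * nS (K + 2) (m' - 1) (fun t => ph2G L₀ m V χ (ex2 L₀ j₀ t)) +
    1 / 4 * ∑ j ∈ range (K + 1), ∑ y ∈ range (m' / 2 + 1), cLm j y *
      (@ite _ ((fun j => j₀ ≤ j) j) (Classical.propDecidable _)
        (nS (K - j) (m' - y) (ph2G L₀ m V χ))
        (nS (K - j) (m' - y) fun t => ph2G L₀ m V χ (ex2 L₀ j₀ t))) ≤ _
  linarith

theorem ph2_sqrt_ge {a x : ℝ} (h : a ^ 2 ≤ x) : a ≤ √x := Real.le_sqrt_of_sq_le h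

open Classical in
theorem phase2 (B η ζ : ℝ) (hB : 1 ≤ B) (hη : 0 < η) (hζ : 0 < ζ) :
    ∃ (K : ℝ) (L₁ : ℕ), 0 < K ∧ ∀ L₀ : ℕ, L₁ ≤ L₀ → ∃ j₀ : ℕ, ∀ m V : ℕ,
      (L₀ : ℝ) ^ 2 ≤ B * m → (m : ℝ) ≤ B * L₀ ^ 2 → ζ * m ≤ V → 4 * V ≤ m →
      ∀ (χ : Mp → ℝ) (β : ℝ), (∀ s, 0 ≤ χ s ∧ χ s ≤ 1) → 0 ≤ β →
        (∀ i : ℕ, L₀ ≤ 4 * i → i ≤ 2 * L₀ → Dom χ β i) →
        nS L₀ m (fun t => if L₀ ≤ 4 * per (ex2 L₀ j₀ t) ∧ per (ex2 L₀ j₀ t) ≤ 2 * L₀ ∧
          m ≤ size (ex2 L₀ j₀ t) + V then χ (ex2 L₀ j₀ t) else 1) ≤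
          (η + K * β) * cLm L₀ m := by
  obtain ⟨c, C, hc, hC, hnum⟩ := ph2_num
  obtain ⟨Cv, hCv, hvol⟩ := volmin
  obtain ⟨ct, Ct, -, hCt, htail⟩ := w_tail
  obtain ⟨cw, Cw, -, hCw, hwb⟩ := w_bounds
  have hB0 : 0 < B := by linarith
  set cB : ℝ := √(Real.exp (-(2 * B)) / (100 * (B + 2) ^ 5)) with hcB
  have hcB0 : 0 < cB := Real.sqrt_pos.2 (by positivity)
  have hcB2 : cB ^ 2 = Real.exp (-(2 * B)) / (100 * (B + 2) ^ 5) := Real.sq_sqrt (by positivity)
  set KM : ℝ := 192 * B ^ 3 with hKM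
  have hKM0 : 0 < KM := by positivity
  set z : ℝ := min 1 (ζ / B) with hz
  have hz0 : 0 < z := lt_min one_pos (by positivity)
  have hz1 : z ≤ 1 := min_le_left _ _
  have hz2 : z ≤ ζ / B := min_le_right _ _
  set E : ℝ := (1 + Cv) / z ^ 3 + 64 * Ct with hE
  have hE0 : 0 < E := by positivity
  set d : ℝ := min 1 (η * c * cB / (KM * (C + E))) with hd
  have hd0 : 0 < d := lt_min one_pos (by positivity)
  have hd1 : d ≤ 1 := min_le_left _ _
  have hd2 : d ≤ η * c * cB / (KM * (C + E)) := min_le_right _ _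
  set K1 : ℝ := 960000 * Cw / (d ^ 9 * KM) with hK1
  have hK10 : 0 < K1 := by positivity
  refine ⟨KM * K1 / (cB * c), max 16 ⌈1 / d ^ 2⌉₊, by positivity, fun L₀ hL => ?_⟩
  have hL16 : 16 ≤ L₀ := le_trans (le_max_left _ _) hL
  have hLr : (16 : ℝ) ≤ L₀ := by exact_mod_cast hL16
  have hLd : 1 / d ^ 2 ≤ L₀ := (Nat.le_ceil _).trans (by exact_mod_cast le_trans (le_max_right _ _) hL)
  have hLd' : 1 ≤ d ^ 2 * L₀ := by
    rw [div_le_iff₀ (by positivity)] at hLd
    linarith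
  refine ⟨⌊d ^ 2 * L₀⌋₊, fun m V h1 h2 h3 h4 χ β hχ hβ hdom => ?_⟩
  set j₀ : ℕ := ⌊d ^ 2 * L₀⌋₊ with hj₀
  have hj1 : 1 ≤ j₀ := Nat.le_floor (by exact_mod_cast hLd')
  have hj1r : (1 : ℝ) ≤ j₀ := by exact_mod_cast hj1
  have hj2 : (j₀ : ℝ) ≤ d ^ 2 * L₀ := Nat.floor_le (by positivity)
  have hj3 : d ^ 2 * L₀ < j₀ + 1 := Nat.lt_floor_add_one _
  have hdd : d ^ 2 ≤ 1 := pow_le_one₀ hd0.le hd1
  have hj4 : j₀ ≤ L₀ := by
    have : (j₀ : ℝ) ≤ L₀ := hj2.trans (mul_le_of_le_one_left (by positivity) hdd)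
    exact_mod_cast this
  set s : ℝ := √(L₀ : ℝ) with hs
  have hs0 : 0 < s := Real.sqrt_pos.2 (by positivity)
  have hs2 : s ^ 2 = L₀ := Real.sq_sqrt (by positivity)
  have hm0 : (0 : ℝ) < m := by
    by_contra h
    have : B * m ≤ 0 := mul_nonpos_of_nonneg_of_nonpos hB0.le (not_lt.1 h)
    nlinarith
  have hm1 : 1 ≤ m := by exact_mod_cast hm0
  have hV0 : (0 : ℝ) < V := lt_of_lt_of_le (by positivity) h3
  have hV1 : 1 ≤ V := by exact_mod_cast hV0
  have hV1r : (1 : ℝ) ≤ V := by exact_mod_cast hV1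
  set r : ℝ := √(j₀ : ℝ) with hr
  have hr0 : 0 < r := Real.sqrt_pos.2 (by positivity)
  have hr2 : r ^ 2 = j₀ := Real.sq_sqrt (by positivity)
  have hrs : r ≤ d * s := by
    refine (pow_le_pow_iff_left₀ hr0.le (by positivity) two_ne_zero).1 ?_
    rw [hr2, mul_pow, hs2]
    exact hj2
  set f : ℝ := j₀ * r / c * (C / (L₀ * r) + (E + K1 * β) / s ^ 3) with hf
  have hf0 : 0 ≤ f := by positivity
  have hVz : (z * s) ^ 4 ≤ V := by
    have a1 : z ^ 4 ≤ z := by
      calc z ^ 4 ≤ z ^ 1 := pow_le_pow_of_le_one hz0.le hz1 (by norm_num)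
        _ = z := pow_one _
    calc (z * s) ^ 4 = z ^ 4 * (L₀ : ℝ) ^ 2 := by rw [← hs2]; ring
      _ ≤ ζ / B * (B * m) := by gcongr; exact a1.trans hz2
      _ = ζ * m := by field_simp
      _ ≤ V := h3
  have key := ph2_core L₀ j₀ m V χ β (KM / s ^ 9) f ((E + K1 * β) / s ^ 3) (30000 / (d * s) ^ 9)
    (32 * Cw / s ^ 5) (64 * Ct / s ^ 3) (Cv / (z * s) ^ 3) hL16 hV1 h4 hχ hβ hdom hf0
    (by positivity) (by positivity) (by positivity) ?_ ?_ ?_ ?_ ?_ ?_ ?_ (2 * m + L₀ + 1) L₀ m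
    (by omega) (by omega) (by omega) le_rfl
  · simp only [sub_self, mul_zero, zero_div, ne_eq, OfNat.ofNat_ne_zero, not_false_eq_true,
      zero_pow, add_zero, zero_le_one, min_eq_right] at key
    refine le_trans key ?_
    have a1 : cB / s ^ 9 ≤ cLm L₀ m := by
      have a2 := cLm_ge B hB L₀ m (by omega) h1 h2
      rw [← hcB2] at a2
      rw [div_le_iff₀ (by positivity)]
      refine (pow_le_pow_iff_left₀ hcB0.le (mul_nonneg (cLm_nonneg _ _) (by positivity))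
        two_ne_zero).1 ?_
      calc cB ^ 2 ≤ cLm L₀ m ^ 2 * (L₀ : ℝ) ^ 9 := a2
        _ = _ := by rw [← hs2]; ring
    have a3 : f ≤ d * (C + E) / c + K1 * β / c := by
      have b1 : f = (C * (r / s) ^ 2 + (E + K1 * β) * (r / s) ^ 3) / c := by
        rw [hf, ← hr2, ← hs2]
        field_simp
      have b2 : r / s ≤ d := by rw [div_le_iff₀ hs0]; exact hrs
      have b3 : 0 ≤ r / s := by positivity
      have b4 : (r / s) ^ 2 ≤ d := by
        calc (r / s) ^ 2 ≤ (r / s) ^ 1 := pow_le_pow_of_le_one b3 (b2.trans hd1) (by norm_num)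
          _ ≤ d := by rw [pow_one]; exact b2
      have b5 : (r / s) ^ 3 ≤ d := by
        calc (r / s) ^ 3 ≤ (r / s) ^ 1 := pow_le_pow_of_le_one b3 (b2.trans hd1) (by norm_num)
          _ ≤ d := by rw [pow_one]; exact b2
      have b6 : C * (r / s) ^ 2 ≤ C * d := by gcongr
      have b7 : E * (r / s) ^ 3 ≤ E * d := by gcongr
      have b8 : K1 * β * (r / s) ^ 3 ≤ K1 * β * 1 := by gcongr; exact b5.trans hd1
      rw [b1, ← add_div]
      apply div_le_div_of_nonneg_right _ hc.le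
      linarith
    have a4 : KM / cB * (d * (C + E) / c) ≤ η := by
      calc KM / cB * (d * (C + E) / c)
          ≤ KM / cB * (η * c * cB / (KM * (C + E)) * (C + E) / c) := by gcongr
        _ = η := by field_simp
    calc KM / s ^ 9 * f = KM / cB * f * (cB / s ^ 9) := by field_simp
      _ ≤ KM / cB * (d * (C + E) / c + K1 * β / c) * cLm L₀ m := by gcongr
      _ = (KM / cB * (d * (C + E) / c) + KM * K1 / (cB * c) * β) * cLm L₀ m := by
          congr 1
          field_simp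
      _ ≤ _ := by
          apply mul_le_mul_of_nonneg_right _ (cLm_nonneg _ _)
          linarith
  · intro L m' hL2 hm'
    refine (cLm_big hm1 hm').trans ?_
    have a1 : √(L : ℝ) ≤ 2 * s := by
      rw [Real.sqrt_le_left (by positivity)]
      have : (L : ℝ) ≤ 2 * L₀ := by exact_mod_cast hL2
      rw [mul_pow, hs2]
      linarith
    have a2 : (L₀ : ℝ) ^ 2 / B ≤ m := by rw [div_le_iff₀ hB0]; linarith
    have a3 : (L₀ : ℝ) / B ≤ √(m : ℝ) := by
      apply ph2_sqrt_ge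
      calc ((L₀ : ℝ) / B) ^ 2 = (L₀ : ℝ) ^ 2 / B / B := by ring
        _ ≤ (L₀ : ℝ) ^ 2 / B := div_le_self (by positivity) hB
        _ ≤ m := a2
    calc 96 * √(L : ℝ) / ((m : ℝ) ^ 2 * √(m : ℝ))
        ≤ 96 * (2 * s) / (((L₀ : ℝ) ^ 2 / B) ^ 2 * ((L₀ : ℝ) / B)) := by gcongr
      _ = KM / s ^ 9 := by
          rw [hKM, ← hs2]
          field_simp
          norm_num
  · intro j y hj
    have a1 := cLm_le j y (by omega)
    have a2 : (d * s) ^ 2 ≤ (j : ℝ) + 1 := by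
      have : (j₀ : ℝ) ≤ j := by exact_mod_cast hj
      rw [mul_pow, hs2]
      linarith
    rw [le_div_iff₀ (by positivity)]
    refine (pow_le_pow_iff_left₀ (mul_nonneg (cLm_nonneg _ _) (by positivity)) (by norm_num)
      two_ne_zero).1 ?_
    calc (cLm j y * (d * s) ^ 9) ^ 2 = cLm j y ^ 2 * ((d * s) ^ 2) ^ 9 := by ring
      _ ≤ cLm j y ^ 2 * ((j : ℝ) + 1) ^ 9 := by gcongr
      _ ≤ _ := a1
  · intro i hi
    have a1 := (hwb i).2
    have a2 : (s / 2) ^ 2 ≤ (i : ℝ) + 1 := by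
      have : (L₀ : ℝ) ≤ 4 * i := by exact_mod_cast hi
      rw [div_pow, hs2]
      linarith
    have a3 := ph2_sqrt_ge a2
    have a4 := (w_pos i).le
    rw [le_div_iff₀ (by positivity)]
    calc w i * s ^ 5 = 32 * (w i * (((s / 2) ^ 2) ^ 2 * (s / 2))) := by ring
      _ ≤ 32 * (w i * (((i : ℝ) + 1) ^ 2 * √((i : ℝ) + 1))) := by gcongr
      _ ≤ 32 * Cw := by gcongr
  · refine (htail (L₀ / 8) (by omega)).2.1.trans ?_
    have a2 : (s / 4) ^ 2 ≤ ((L₀ / 8 : ℕ) : ℝ) := by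
      have h : L₀ ≤ 16 * (L₀ / 8) := by omega
      have h' : (L₀ : ℝ) ≤ 16 * ((L₀ / 8 : ℕ) : ℝ) := by exact_mod_cast h
      rw [div_pow, hs2]
      linarith
    have a3 := ph2_sqrt_ge a2
    calc Ct / (((L₀ / 8 : ℕ) : ℝ) * √((L₀ / 8 : ℕ) : ℝ)) ≤ Ct / ((s / 4) ^ 2 * (s / 4)) := by
          gcongr
      _ = 64 * Ct / s ^ 3 := by
          field_simp
          norm_num
  · intro J N
    refine (hvol V hV1r J N).trans ?_
    have a1 : (z * s) ^ 2 ≤ √(V : ℝ) := ph2_sqrt_ge (by rw [← pow_mul]; exact hVz)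
    have a2 := ph2_sqrt_ge a1
    calc Cv / (√(V : ℝ) * √(√(V : ℝ))) ≤ Cv / ((z * s) ^ 2 * (z * s)) := by gcongr
      _ = _ := by rw [← pow_succ]
  · intro x hx
    have a1 := hnum L₀ j₀ x f hj1 hj4 hx hf0
    rw [← hr] at a1
    have a2 : c * f / (j₀ * r) = C / (L₀ * r) + (E + K1 * β) / s ^ 3 := by
      rw [hf]
      field_simp
    linarith
  · have a1 : 1 / (V : ℝ) ≤ 1 / (z * s) ^ 3 := by
      apply one_div_le_one_div_of_le (by positivity)
      rcases le_total 1 (z * s) with h | h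
      · exact (pow_le_pow_right₀ h (by norm_num)).trans hVz
      · exact (pow_le_one₀ (by positivity) h).trans hV1r
    have a2 : 1 / (z * s) ^ 3 + Cv / (z * s) ^ 3 + 64 * Ct / s ^ 3 = E / s ^ 3 := by
      rw [hE]
      field_simp
    have a3 : (L₀ : ℝ) * (30000 / (d * s) ^ 9) * (32 * Cw / s ^ 5) * β
        = KM / s ^ 9 * (K1 * β / s ^ 3) := by
      rw [hK1, ← hs2]
      field_simp
      ring
    have a4 : KM / s ^ 9 * (1 / V + Cv / (z * s) ^ 3 + 64 * Ct / s ^ 3)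
        ≤ KM / s ^ 9 * (E / s ^ 3) := by
      apply mul_le_mul_of_nonneg_left _ (by positivity)
      linarith
    rw [a3, add_div, mul_add]
    linarith

end Pool.Agent.QL.NT
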