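import Pool.Agent.P.MP_7a6434d8_pr.QL.NT.Ph1
import Pool.Agent.P.MP_7a6434d8_pr.QL.NT.Ph2

/-! The two phases together. -/

open MeasureTheory ProbabilityTheory Filter Finset
open scoped ENNReal

namespace Pool.Agent.QL.NT

open Pool.Agent.P.MP_7a6434d8_pr Mp

theorem expl_num {C η z θ x V L : ℝ} (hC : 0 < C) (hη : 0 < η) (hz : 0 < z)
    (hθ1 : θ ≤ z) (hθ2 : C * θ ≤ η * z) (hx : 0 < x)
    (hL : L ≤ θ * x) (hV : z ^ 2 * x ^ 2 ≤ V) :
    C * (L * √L) / (√V * √(√V)) ≤ η := by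
  have h1 : z * x ≤ √V := Real.le_sqrt_of_sq_le (by rw [mul_pow]; exact hV)
  have h0 : 0 < z * x := mul_pos hz hx
  have h2 : √L ≤ √(√V) := Real.sqrt_le_sqrt (hL.trans ((by gcongr : θ * x ≤ z * x).trans h1))
  have h3 : 0 < √V := h0.trans_le h1
  have h4 : 0 < √(√V) := Real.sqrt_pos.2 h3
  rw [div_le_iff₀ (mul_pos h3 h4)]
  have h5 : C * L ≤ η * √V := by
    calc C * L ≤ C * (θ * x) := by gcongr
      _ = C * θ * x := by ring
      _ ≤ η * z * x := by gcongr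
      _ = η * (z * x) := by ring
      _ ≤ η * √V := by gcongr
  calc C * (L * √L) = C * L * √L := by ring
    _ ≤ η * √V * √(√V) := by gcongr
    _ = _ := by ring

open Classical in
theorem expl_comp {N V L₀ j₀ : ℕ} {η K β : ℝ} (hη : 0 ≤ η) (hK : 0 ≤ K) (hβ : 0 ≤ β)
    (χ : Mp → ℝ) (P : Mp → Prop) (hχ : ∀ s, 0 ≤ χ s ∧ χ s ≤ 1)
    (hP : ∀ s, L₀ ≤ 4 * per s → per s ≤ 2 * L₀ → N ≤ size s + 2 * V → P s)
    (h1 : nS 2 N (fun t => if per (ex1 L₀ t) = L₀ ∧ N ≤ size (ex1 L₀ t) + V then 0 else 1) ≤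
      η * cLm 2 N)
    (h2 : ∀ m, m ≤ N → N ≤ m + V → nS L₀ m (fun t => if L₀ ≤ 4 * per (ex2 L₀ j₀ t) ∧
      per (ex2 L₀ j₀ t) ≤ 2 * L₀ ∧ m ≤ size (ex2 L₀ j₀ t) + V then χ (ex2 L₀ j₀ t) else 1) ≤
        (η + K * β) * cLm L₀ m) :
    nS 2 N (fun t => if P (ex2 L₀ j₀ (ex1 L₀ t)) then χ (ex2 L₀ j₀ (ex1 L₀ t)) else 1) ≤
      (2 * η + K * β) * cLm 2 N := by
  set G : Mp → ℝ := fun s => if P s then χ s else 1 with hG
  have hG1 : ∀ s, G s ≤ 1 := fun s => by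
    simp only [hG]; split_ifs; exacts [(hχ s).2, le_rfl]
  have hG0 : ∀ s, 0 ≤ G s := fun s => by
    simp only [hG]; split_ifs; exacts [(hχ s).1, zero_le_one]
  set F : Mp → ℝ := fun s => if per s = L₀ ∧ N ≤ size s + V ∧ size s ≤ N then
    G (ex2 L₀ j₀ s) else 0 with hF
  have hM : ∀ L m, nS L m F ≤ (η + K * β) * cLm L m := by
    intro L m
    by_cases hc : L = L₀ ∧ N ≤ m + V ∧ m ≤ N
    · obtain ⟨rfl, h3, h4⟩ := hc
      refine le_trans (nS_mono fun t _ h5 h6 => ?_) (h2 m h4 h3)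
      simp only [hF]
      rw [if_pos ⟨h5, h6 ▸ h3, h6 ▸ h4⟩]
      split_ifs with h7
      · simp only [hG]
        rw [if_pos (hP _ h7.1 h7.2.1 (by omega))]
      · exact hG1 _
    · refine le_trans (nS_mono (G := fun _ => 0) fun t _ h5 h6 => ?_) ?_
      · simp only [hF]
        rw [if_neg (by rw [h5, h6]; exact hc)]
      · rw [nS_const, zero_mul]
        exact mul_nonneg (by positivity) (cLm_nonneg _ _)
  have h3 := ex_markov (fun L => L = L₀) (fun _ => False) (fun _ => False) F _ hM 2 N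
  refine le_trans (nS_mono (G := fun t => F (ex1 L₀ t) +
    (if per (ex1 L₀ t) = L₀ ∧ N ≤ size (ex1 L₀ t) + V then 0 else 1)) fun t _ _ h6 => ?_) ?_
  · have h7 : size (ex1 L₀ t) ≤ N := h6 ▸ size_ex_le _ _ _ t
    by_cases hc : per (ex1 L₀ t) = L₀ ∧ N ≤ size (ex1 L₀ t) + V
    · simp only [hF]
      rw [if_pos hc, if_pos (show _ ∧ _ ∧ _ from ⟨hc.1, hc.2, h7⟩), add_zero]
    · simp only [hF]
      rw [if_neg hc, if_neg (show ¬ (_ ∧ _ ∧ _) from fun h => hc ⟨h.1, h.2.1⟩), zero_add]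
      exact hG1 _
  · rw [nS_add]
    have : nS 2 N (fun t => F (ex1 L₀ t)) ≤ (η + K * β) * cLm 2 N := h3
    linarith

theorem explore (η ζ : ℝ) (hη : 0 < η) (hζ : 0 < ζ) : ∃ θ₀ : ℝ, 0 < θ₀ ∧ ∀ θ : ℝ, 0 < θ →
    θ ≤ θ₀ → ∃ K : ℝ, 0 < K ∧ ∀ᶠ n : ℕ in atTop, ∃ e, Explore η ζ θ K n e := by
  classical
  obtain ⟨C, hC, h1⟩ := phase1
  obtain ⟨z, hz, hz1, hzζ⟩ : ∃ z : ℝ, 0 < z ∧ z ≤ 1 / 4 ∧ 8 * z ≤ ζ :=
    ⟨min (1 / 4) (ζ / 8), by positivity, min_le_left _ _, by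
      linarith [min_le_right (1 / 4 : ℝ) (ζ / 8)]⟩
  refine ⟨min z (η / 2 * z / C), by positivity, fun θ hθ hθ₀ => ?_⟩
  have hθ1 : θ ≤ z := hθ₀.trans (min_le_left _ _)
  have hθ2 : C * θ ≤ η / 2 * z := by
    have := hθ₀.trans (min_le_right _ _)
    rwa [le_div_iff₀ hC, mul_comm] at this
  have hB : 1 ≤ 4 / θ ^ 2 := by
    rw [le_div_iff₀ (by positivity)]
    nlinarith
  obtain ⟨K, L₁, hK, h2⟩ := phase2 (4 / θ ^ 2) (η / 2) (z ^ 2) hB (half_pos hη) (by positivity)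
  refine ⟨K, hK, ?_⟩
  have t1 : Tendsto (fun n : ℕ => (n : ℝ)) atTop atTop := tendsto_natCast_atTop_atTop
  have t2 : Tendsto (fun n : ℕ => θ * √(n : ℝ)) atTop atTop :=
    (Real.tendsto_sqrt_atTop.comp t1).const_mul_atTop hθ
  filter_upwards [t2.eventually_ge_atTop (L₁ + 2), t1.eventually_ge_atTop (10 / z),
    t1.eventually_ge_atTop 100] with n hn1 hn2 hn3
  set x := √(n : ℝ) with hx
  have hxx : x ^ 2 = n := Real.sq_sqrt (by positivity)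
  have hx0 : 0 < x := Real.sqrt_pos.2 (by linarith)
  set L₀ := ⌊θ * x⌋₊ with hL₀
  set V := ⌈z ^ 2 * n⌉₊ with hV
  have a1 : (L₀ : ℝ) ≤ θ * x := Nat.floor_le (by positivity)
  have a2 : θ * x < L₀ + 1 := Nat.lt_floor_add_one _
  have a3 : L₁ + 2 ≤ L₀ := Nat.le_floor (by exact_mod_cast hn1)
  have a3' : (2 : ℝ) ≤ L₀ := by exact_mod_cast (by omega : 2 ≤ L₀)
  have a4 : z ^ 2 * n ≤ V := Nat.le_ceil _
  have a5 : (V : ℝ) < z ^ 2 * n + 1 := Nat.ceil_lt_add_one (by positivity)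
  have a6 : 1 ≤ V := Nat.ceil_pos.2 (by positivity)
  have hn : 1 ≤ n := by exact_mod_cast (by linarith : (1 : ℝ) ≤ n)
  have a7 : ((n - 1 : ℕ) : ℝ) = n - 1 := by rw [Nat.cast_sub hn, Nat.cast_one]
  have hzz : z ^ 2 ≤ 1 / 16 := by
    calc z ^ 2 ≤ (1 / 4) ^ 2 := by gcongr
      _ = _ := by norm_num
  have hθθ : θ ^ 2 ≤ 1 / 16 := le_trans (by gcongr) hzz
  have a8 : z ^ 2 * n ≤ n / 16 := by
    calc z ^ 2 * n ≤ 1 / 16 * n := by gcongr
      _ = _ := by ring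
  have a9 : 5 * V ≤ n - 1 := by
    have : ((5 * V : ℕ) : ℝ) ≤ ((n - 1 : ℕ) : ℝ) := by rw [a7]; push_cast; linarith
    exact_mod_cast this
  have a10 : 10 ≤ z * n := by rwa [div_le_iff₀ hz, mul_comm] at hn2
  obtain ⟨j₀, h3⟩ := h2 L₀ (by omega)
  refine ⟨fun t => ex2 L₀ j₀ (ex1 L₀ t), fun t ht => ?_, fun F β hF => ?_,
    fun χ β hχ hβ hD => ?_⟩
  · obtain ⟨o1, ι, s1⟩ := ex_sub (fun L => L = L₀) (fun _ => False) (fun _ => False) t ht
    obtain ⟨o2, ι', s2⟩ := ex_sub (fun _ => False) (fun L => 2 * L < L₀ ∨ 3 * L₀ < 2 * L)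
      (fun j => j₀ ≤ j) _ o1
    exact ⟨o2, _, s2.trans s1⟩
  · exact ex_markov _ _ _ (fun s => F (ex2 L₀ j₀ s)) β (ex_markov _ _ _ F β hF) 2 (n - 1)
  · have hr : ∀ i : ℕ, L₀ ≤ 4 * i → i ≤ 2 * L₀ → θ * x ≤ 8 * i ∧ (i : ℝ) ≤ 2 * θ * x := by
      intro i i1 i2
      have i3 : (L₀ : ℝ) ≤ 4 * i := by exact_mod_cast i1
      have i4 : (i : ℝ) ≤ 2 * L₀ := by exact_mod_cast i2
      constructor <;> linarith
    have h4 := expl_comp (N := n - 1) (V := V) (L₀ := L₀) (j₀ := j₀) (η := η / 2) (K := K)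
      (β := β) (half_pos hη).le hK.le hβ χ (fun s => θ * x ≤ 8 * per s ∧
        (per s : ℝ) ≤ 2 * θ * x ∧ (1 - ζ) * n ≤ size s) hχ (fun s s1 s2 s3 => ?_) ?_ ?_
    · rw [show 2 * (η / 2) = η by ring] at h4
      convert h4
    · refine ⟨(hr _ s1 s2).1, (hr _ s1 s2).2, ?_⟩
      have s4 : ((n - 1 : ℕ) : ℝ) ≤ size s + 2 * V := by exact_mod_cast s3
      have s5 : z ^ 2 * n ≤ z * n := by
        rw [sq]; gcongr; exact mul_le_of_le_one_left hz.le (by linarith)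
      have s6 : 8 * z * n ≤ ζ * n := by gcongr
      linarith
    · refine (h1 (n - 1) V L₀ (by omega) a6 (by omega)).trans ?_
      refine mul_le_mul_of_nonneg_right ?_ (cLm_nonneg _ _)
      exact expl_num hC (half_pos hη) hz hθ1 hθ2 hx0 a1
        (by rw [hxx]; exact a4)
    · intro m m1 m2
      have m3 : (m : ℝ) ≤ n - 1 := by rw [← a7]; exact_mod_cast m1
      have m4 : (n : ℝ) - 1 ≤ m + V := by rw [← a7]; exact_mod_cast m2
      refine h3 m V ?_ ?_ ?_ (by omega) χ β hχ hβ fun i i1 i2 => hD i (hr i i1 i2).1 (hr i i1 i2).2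
      · have b1 : (L₀ : ℝ) ^ 2 ≤ θ ^ 2 * n := by
          rw [← hxx, ← mul_pow]; gcongr
        have b2 : θ ^ 2 * n ≤ 1 / 16 * n := by gcongr
        have b3 : (m : ℝ) ≤ 4 / θ ^ 2 * m := le_mul_of_one_le_left (by positivity) hB
        linarith
      · have b1 : θ * x ≤ 2 * L₀ := by linarith
        have b2 : θ ^ 2 * n ≤ 4 * L₀ ^ 2 := by
          rw [← hxx, ← mul_pow]
          calc (θ * x) ^ 2 ≤ (2 * L₀) ^ 2 := by gcongr
            _ = _ := by ring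
        rw [div_mul_eq_mul_div, le_div_iff₀ (by positivity)]
        have b3 : (m : ℝ) * θ ^ 2 ≤ n * θ ^ 2 :=
          mul_le_mul_of_nonneg_right (by linarith) (by positivity)
        linarith
      · have : z ^ 2 * m ≤ z ^ 2 * n := mul_le_mul_of_nonneg_left (by linarith) (by positivity)
        linarith

end Pool.Agent.QL.NT
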