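import Pool.Agent.P.MP_7a6434d8_pr.QL.NT.Expl
import Pool.Agent.P.MP_7a6434d8_pr.QL.NT.Cnt
import Pool.Agent.P.MP_7a6434d8_pr.QL.NT.Ball
import Pool.Agent.P.MP_7a6434d8_pr.QL.W.GTrap

/-! No trap at the root. -/

open MeasureTheory ProbabilityTheory Filter Finset
open scoped ENNReal

namespace Pool.Agent.QL.NT

open Pool.Agent.P.MP_7a6434d8_pr Mp

theorem main_unif {α : Type} [Finite α] [MeasurableSpace α] [DiscreteMeasurableSpace α]
    (S : Set α) {c : ℝ} (hc : 0 ≤ c) (h : (Nat.card S : ℝ) ≤ c * Nat.card α) :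
    uniformOn Set.univ S ≤ ENNReal.ofReal c := by
  have := Fintype.ofFinite α
  rw [uniformOn_univ, Measure.count_apply_finite S (Set.toFinite _)]
  refine ENNReal.div_le_of_le_mul ?_
  rw [← ENNReal.ofReal_natCast, ← ENNReal.ofReal_natCast (Fintype.card α),
    ← ENNReal.ofReal_mul hc]
  refine ENNReal.ofReal_le_ofReal ?_
  rwa [← Nat.card_eq_fintype_card, ← Set.ncard_eq_toFinset_card, ← Nat.card_coe_set_eq]

theorem ballN_mono (t : Mp) {k k' : ℕ} (h : k ≤ k') (x : V t) : ballN t k x ≤ ballN t k' x := by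
  classical
  unfold ballN
  refine card_le_card fun y hy => ?_
  simp only [mem_filter, mem_univ, true_and] at hy ⊢
  exact hy.mono h

theorem main_cn {n : ℕ} (hn : 1 ≤ n) : 0 < cn n ∧ cn n ^ 2 * √(n : ℝ) ≤ 2 := by
  have h0 : (0 : ℝ) < n := by exact_mod_cast hn
  have h1 : 0 < cn n := Real.rpow_pos_of_pos (by positivity) _
  have h2 : cn n ^ 4 = 9 / 8 / n := by
    unfold cn
    rw [← Real.rpow_natCast, ← Real.rpow_mul (by positivity)]
    norm_num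
  refine ⟨h1, abs_le_of_sq_le_sq' ?_ (by norm_num) |>.2⟩
  rw [mul_pow, Real.sq_sqrt h0.le, ← pow_mul, h2, div_mul_cancel₀ _ h0.ne']
  norm_num

theorem main_cn_ev {ρ : ℝ} (hρ : 0 < ρ) (M : ℝ) : ∀ᶠ n : ℕ in atTop, M ≤ ρ / cn n := by
  have t : Tendsto (fun n : ℕ => √(n : ℝ)) atTop atTop :=
    Real.tendsto_sqrt_atTop.comp tendsto_natCast_atTop_atTop
  filter_upwards [t.eventually_ge_atTop (2 * (M / ρ) ^ 2), eventually_ge_atTop 1] with n h1 h2
  obtain ⟨h3, h4⟩ := main_cn h2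
  rw [le_div_iff₀ h3]
  refine (abs_le_of_sq_le_sq' ?_ hρ.le).2
  have h5 : cn n ^ 2 * (2 * (M / ρ) ^ 2) ≤ 2 := le_trans (by gcongr) h4
  have h6 : (M * cn n) ^ 2 = ρ ^ 2 * (cn n ^ 2 * (2 * (M / ρ) ^ 2) / 2) := by field_simp
  rw [h6]
  exact mul_le_of_le_one_right (by positivity) (by linarith)

open Classical in
theorem main_rng {C θ ρ β : ℝ} (hC : 0 < C) (hθ : 0 < θ) (hθ1 : θ ≤ 1 / 2) (hρ : 0 < ρ)
    (hβ : 192 * C * θ ≤ β * ρ ^ 2) {n y : ℕ} (hn : 1 ≤ n) (hy : ρ / cn n ≤ 4 * y)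
    (h : ∀ L m y : ℕ, 1 ≤ L → 1 ≤ y →
      nS L m (fun t => (rngN t y : ℝ)) ≤ C * L / (y : ℝ) ^ 2 * (m + L + 1) * cLm L m) (L m : ℕ) :
    nS L m (fun s => if 1 ≤ per s ∧ (per s : ℝ) ≤ 2 * θ * √(n : ℝ) ∧ size s ≤ n then
      (rngN s y : ℝ) else 0) ≤ β * n * cLm L m := by
  obtain ⟨c1, c2⟩ := main_cn hn
  have h0 : (1 : ℝ) ≤ n := by exact_mod_cast hn
  have hβ0 : 0 < β := by
    by_contra hh
    have : β * ρ ^ 2 ≤ 0 := mul_nonpos_of_nonpos_of_nonneg (not_lt.1 hh) (by positivity)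
    have : 0 < 192 * C * θ := by positivity
    linarith
  by_cases hc : 1 ≤ L ∧ (L : ℝ) ≤ 2 * θ * √(n : ℝ) ∧ m ≤ n
  · obtain ⟨h1, h2, h3⟩ := hc
    have hy0 : (0 : ℝ) < y := by
      have : 0 < ρ / cn n := by positivity
      linarith
    refine le_trans (nS_mono fun t _ h5 h6 => ?_) ((h L m y h1 (by exact_mod_cast hy0)).trans ?_)
    · split_ifs
      exacts [le_rfl, Nat.cast_nonneg _]
    · refine mul_le_mul_of_nonneg_right ?_ (cLm_nonneg _ _)
      have s1 : √(n : ℝ) ≤ n := by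
        rw [Real.sqrt_le_left (by positivity)]; nlinarith
      have s2 : (m : ℝ) + L + 1 ≤ 3 * n := by
        have : (m : ℝ) ≤ n := by exact_mod_cast h3
        have : 2 * θ * √(n : ℝ) ≤ 1 * n := by gcongr; linarith
        linarith
      have s3 : ρ ≤ 4 * y * cn n := by rwa [div_le_iff₀ c1] at hy
      have s4 : ρ ^ 2 * √(n : ℝ) ≤ 32 * (y : ℝ) ^ 2 := by
        calc ρ ^ 2 * √(n : ℝ) ≤ (4 * y * cn n) ^ 2 * √(n : ℝ) := by gcongr
          _ = 16 * (y : ℝ) ^ 2 * (cn n ^ 2 * √(n : ℝ)) := by ring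
          _ ≤ 16 * (y : ℝ) ^ 2 * 2 := by gcongr
          _ = _ := by ring
      have s5 : C * L / (y : ℝ) ^ 2 ≤ β / 3 := by
        rw [div_le_iff₀ (by positivity)]
        calc C * L ≤ C * (2 * θ * √(n : ℝ)) := by gcongr
          _ = 192 * C * θ * √(n : ℝ) / 96 := by ring
          _ ≤ β * ρ ^ 2 * √(n : ℝ) / 96 := by gcongr
          _ = β * (ρ ^ 2 * √(n : ℝ)) / 96 := by ring
          _ ≤ β * (32 * (y : ℝ) ^ 2) / 96 := by gcongr
          _ = _ := by ring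
      calc _ ≤ β / 3 * (3 * n) := by gcongr
        _ = _ := by ring
  · refine le_trans (nS_mono (G := fun _ => 0) fun t _ h5 h6 => ?_) ?_
    · rw [if_neg (by rw [h5, h6]; exact hc)]
    · rw [nS_const, zero_mul]
      exact mul_nonneg (by positivity) (cLm_nonneg _ _)

theorem main_dom {A B : ℕ → ℝ} {η b β : ℝ} {i : ℕ} (hb : 0 < b) (hβ : 0 ≤ β)
    (h : IE i (fun t => (badN t (A i) (B i) : ℝ≥0∞)) ≤ ENNReal.ofReal (η * Z i))
    (hη : η ≤ β * b) : Dom (fun s => min 1 (badN s (A (per s)) (B (per s)) / b)) β i := by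
  refine dom_of_IE (fun s => le_min zero_le_one (by positivity)) hβ ?_
  refine le_trans (IE_mono (G := fun t => ENNReal.ofReal (1 / b) *
    (badN t (A i) (B i) : ℝ≥0∞)) fun t _ ht => ?_) ?_
  · rw [ht, ← ENNReal.ofReal_natCast, ← ENNReal.ofReal_mul (by positivity)]
    refine ENNReal.ofReal_le_ofReal ((min_le_right _ _).trans (le_of_eq (by ring)))
  · rw [IE_const_mul]
    refine (mul_le_mul_right h _).trans ?_
    rw [← ENNReal.ofReal_mul (by positivity)]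
    refine ENNReal.ofReal_le_ofReal ?_
    rw [← mul_assoc]
    refine mul_le_mul_of_nonneg_right ?_ (Z_pos i).le
    rwa [one_div, inv_mul_le_iff₀ hb, mul_comm]

theorem nt (kap a : ℕ → ℝ) (C : ℝ) (hC : 0 < C) (ha : ∀ᶠ n in atTop, 0 < a n)
    (hcmp : ∀ θ : ℝ, 0 < θ → θ ≤ 1 / 2 → ∀ᶠ n : ℕ in atTop, ∀ i : ℕ, θ * √(n : ℝ) ≤ 8 * i →
      (i : ℝ) ≤ 2 * θ * √(n : ℝ) → (i : ℝ) ^ 2 * kap i ≤ C * a n)
    (hN : ND.NDdisc kap) (hQ : QVStmt) (hB : BallSmall) (ε : ℝ) (hε : 0 < ε) (η : ℝ≥0∞)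
    (hη : 0 < η) : ∃ r > 0, ∀ᶠ n : ℕ in atTop,
      uniformOn Set.univ {c : RootedQuad n | ¬ NoTrap (Quot.out c) (a n) ε r
        ((Quot.out c).tail (Quot.out c).root)} ≤ η := by
  classical
  obtain ⟨e, he, heη⟩ : ∃ e : ℝ, 0 < e ∧ ENNReal.ofReal (7 * e) ≤ η := by
    obtain ⟨x, -, h1, h2⟩ := ENNReal.lt_iff_exists_real_btwn.1 hη
    refine ⟨x / 7, by linarith [ENNReal.ofReal_pos.1 h1], ?_⟩
    rw [mul_div_cancel₀ _ (by norm_num)]
    exact h2.le
  obtain ⟨D, hD⟩ := root_deg e he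
  set β : ℝ := e / (D + 1) with hβ
  have hβ0 : 0 < β := by positivity
  have hDβ : D * β ≤ e := by
    rw [hβ, ← mul_div_assoc, div_le_iff₀ (by positivity)]
    nlinarith
  obtain ⟨CQ, hCQ, hrng⟩ := rng_bound hQ
  obtain ⟨ρ₁, hρ₁, hb₁⟩ := hB β e hβ0 he
  obtain ⟨θ₀, hθ₀, hex⟩ := explore e β he hβ0
  obtain ⟨θ, hθ, t1, t2, t3⟩ : ∃ θ : ℝ, 0 < θ ∧ θ ≤ θ₀ ∧ θ ≤ 1 / 2 ∧
      192 * CQ * θ ≤ β * ρ₁ ^ 2 := by
    refine ⟨min θ₀ (min (1 / 2) (β * ρ₁ ^ 2 / (192 * CQ))), by positivity, min_le_left _ _,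
      (min_le_right _ _).trans (min_le_left _ _), ?_⟩
    rw [mul_comm, ← le_div_iff₀ (by positivity)]
    exact (min_le_right _ _).trans (min_le_right _ _)
  obtain ⟨K, hK, hex⟩ := hex θ hθ t1
  obtain ⟨v₀, hv₀, L₁, hnd⟩ := hN (ε / C) (by positivity) (e / K * β) (by positivity)
  obtain ⟨ρ₂, hρ₂, hb₂⟩ := hB (v₀ * θ ^ 2 / 256) e (by positivity) he
  refine ⟨min (ρ₁ / 2) (ρ₂ / 2), by positivity, ?_⟩
  have u1 : Tendsto (fun n : ℕ => (n : ℝ)) atTop atTop := tendsto_natCast_atTop_atTop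
  have u2 : Tendsto (fun n : ℕ => θ * √(n : ℝ)) atTop atTop :=
    (Real.tendsto_sqrt_atTop.comp u1).const_mul_atTop hθ
  filter_upwards [hD, hb₁, hb₂, hex, ha, hcmp θ hθ t2, eventually_ge_atTop 1,
    main_cn_ev hρ₁ 4, main_cn_ev hρ₂ 4, u2.eventually_ge_atTop (8 * L₁ + 1),
    u1.eventually_ge_atTop (D / e)] with n hD hb₁ hb₂ ⟨E, hE1, hE2, hE3⟩ ha hcmp hn c1 c2 c3 c4
  set r := min (ρ₁ / 2) (ρ₂ / 2) with hr
  have hr0 : 0 < r := by positivity
  have hcn := (main_cn hn).1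
  have hn0 : (0 : ℝ) < n := by exact_mod_cast hn
  have hxx : √(n : ℝ) ^ 2 = n := Real.sq_sqrt hn0.le
  set R := ⌊r / cn n⌋₊ with hR
  set y := ⌊ρ₁ / 2 / cn n⌋₊ with hy
  have r1 : (R : ℝ) ≤ r / cn n := Nat.floor_le (by positivity)
  have r2 : r / cn n ≤ ρ₁ / 2 / cn n := by gcongr; exact min_le_left _ _
  have r3 : r / cn n ≤ ρ₂ / 2 / cn n := by gcongr; exact min_le_right _ _
  have r4 : (y : ℝ) ≤ ρ₁ / 2 / cn n := Nat.floor_le (by positivity)
  have r5 : ρ₁ / 2 / cn n < y + 1 := Nat.lt_floor_add_one _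
  have r6 : ρ₁ / 2 / cn n = ρ₁ / cn n / 2 := by ring
  have r7 : ρ₂ / 2 / cn n = ρ₂ / cn n / 2 := by ring
  have r8 : R + y ≤ ⌊ρ₁ / cn n⌋₊ := Nat.le_floor (by push_cast; linarith)
  have r9 : R + 2 ≤ ⌊ρ₂ / cn n⌋₊ := Nat.le_floor (by push_cast; linarith)
  have r10 : ∀ k : ℕ, cn n * k ≤ r → k ≤ R := fun k hk =>
    Nat.le_floor (by rwa [le_div_iff₀ hcn, mul_comm])
  set χ : Mp → ℝ := fun s => min 1 (badN s (v₀ * (per s : ℝ) ^ 2)
    (ε / C * (per s : ℝ) ^ 2 * kap (per s)) / (β * n)) with hχ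
  have hχ01 : ∀ s, 0 ≤ χ s ∧ χ s ≤ 1 := fun s =>
    ⟨le_min zero_le_one (by positivity), min_le_left _ _⟩
  have k3 := hE3 χ (e / K) hχ01 (by positivity) fun i i1 i2 => by
    have i3 : L₁ ≤ i := by
      have : (L₁ : ℝ) ≤ i := by linarith
      exact_mod_cast this
    refine main_dom (A := fun i => v₀ * (i : ℝ) ^ 2) (B := fun i => ε / C * (i : ℝ) ^ 2 * kap i)
      (η := e / K * β * (i : ℝ) ^ 2) (by positivity) (by positivity) ?_ ?_
    · have := hnd i i3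
      unfold badN
      convert this
    · rw [mul_assoc]
      gcongr
      rw [← hxx]
      gcongr
      calc (i : ℝ) ≤ 2 * θ * √(n : ℝ) := i2
        _ ≤ 1 * √(n : ℝ) := by gcongr; linarith
        _ = _ := one_mul _
  rw [mul_div_cancel₀ _ hK.ne'] at k3
  have k2 := hE2 _ _ (main_rng hCQ hθ t2 hρ₁ t3 hn (y := y) (by linarith) hrng)
  set I₁ : Mp → ℝ := fun t => if ∃ x, β * n < ballN t ⌊ρ₁ / cn n⌋₊ x then 1 else 0 with hI₁
  set I₂ : Mp → ℝ := fun t => if ∃ x, v₀ * θ ^ 2 / 256 * n < ballN t ⌊ρ₂ / cn n⌋₊ x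
    then 1 else 0 with hI₂
  set I₃ : Mp → ℝ := fun t => if θ * √(n : ℝ) ≤ 8 * per (E t) ∧
    (per (E t) : ℝ) ≤ 2 * θ * √(n : ℝ) ∧ (1 - β) * n ≤ size (E t) then χ (E t) else 1 with hI₃
  set I₄ : Mp → ℝ := fun t => if 1 ≤ per (E t) ∧ (per (E t) : ℝ) ≤ 2 * θ * √(n : ℝ) ∧
    size (E t) ≤ n then (rngN (E t) y : ℝ) else 0 with hI₄
  have p1 : ∀ t, 0 ≤ I₁ t := fun t => by simp only [hI₁]; split_ifs <;> norm_num
  have p2 : ∀ t, 0 ≤ I₂ t := fun t => by simp only [hI₂]; split_ifs <;> norm_num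
  have p3 : ∀ t, 0 ≤ I₃ t := fun t => by
    simp only [hI₃]; split_ifs; exacts [(hχ01 _).1, zero_le_one]
  have p4 : ∀ t, 0 ≤ I₄ t := fun t => by simp only [hI₄]; split_ifs <;> positivity
  have key := reroot_sum hn
    (fun q d => ¬ NoTrap q (a n) ε r (q.tail d) ∧ (q.out (q.tail d)).card ≤ D)
    (fun q q' ψ h1 h2 d hd => ⟨fun h => hd.1 (by
      have := NoTrap.iso (UIso.symm ⟨h1, h2⟩) h
      rwa [Equiv.symm_apply_apply] at this), by
      rw [← xreroot_tail q q' ψ h1 h2, xreroot_out, card_map]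
      exact hd.2⟩)
    (fun t => 4 * n * (I₁ t + (I₂ t + I₃ t)) + (D * I₄ t + D * (3 * β * n + 2)))
    (fun q t h => by
      have z0 : 0 ≤ D * I₄ t + D * (3 * β * n + 2) := by have := p4 t; positivity
      have z1 : 1 ≤ I₁ t + (I₂ t + I₃ t) → ∀ S : Finset (Fin (4 * n)), (S.card : ℝ) ≤
          4 * n * (I₁ t + (I₂ t + I₃ t)) + (D * I₄ t + D * (3 * β * n + 2)) := by
        intro h1 S
        have h2 : (S.card : ℝ) ≤ 4 * n := by
          have := card_le_univ S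
          rw [Fintype.card_fin] at this
          exact_mod_cast this
        have h3 : 4 * (n : ℝ) * 1 ≤ 4 * n * (I₁ t + (I₂ t + I₃ t)) := by gcongr
        linarith
      have q1 := p1 t
      have q2 := p2 t
      have q3 := p3 t
      by_cases b1 : ∃ x, β * n < ballN t ⌊ρ₁ / cn n⌋₊ x
      · exact z1 (by have : I₁ t = 1 := if_pos b1; linarith) _
      by_cases b2 : ∃ x, v₀ * θ ^ 2 / 256 * n < ballN t ⌊ρ₂ / cn n⌋₊ x
      · exact z1 (by have : I₂ t = 1 := if_pos b2; linarith) _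
      by_cases b3 : θ * √(n : ℝ) ≤ 8 * per (E t) ∧
        (per (E t) : ℝ) ≤ 2 * θ * √(n : ℝ) ∧ (1 - β) * n ≤ size (E t)
      swap
      · exact z1 (by have : I₃ t = 1 := if_neg b3; linarith) _
      have e3 : I₃ t = χ (E t) := if_pos b3
      by_cases b4 : 1 ≤ χ (E t)
      · exact z1 (by linarith) _
      push Not at b1 b2
      obtain ⟨o1, ι, hι⟩ := hE1 t h.1
      have g1 : (badN (E t) (v₀ * (per (E t) : ℝ) ^ 2)
          (ε / C * (per (E t) : ℝ) ^ 2 * kap (per (E t))) : ℝ) ≤ β * n := by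
        rw [← div_le_one (by positivity)]
        by_contra hh
        exact b4 (le_min le_rfl (not_le.1 hh).le)
      have g2 : 1 ≤ per (E t) := by
        have : (0 : ℝ) < per (E t) := by
          have : (0 : ℝ) ≤ L₁ := Nat.cast_nonneg _
          linarith [b3.1]
        exact_mod_cast this
      have g3 : size (E t) ≤ n := by
        have h1 := Fintype.card_le_of_injective ι hι.inj
        rw [card_V _ o1, card_V _ h.1, h.2.1] at h1
        have h2 := h.2.2.1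
        omega
      have e4 : I₄ t = rngN (E t) y := if_pos ⟨g2, b3.2.1, g3⟩
      have g4 := bad_darts (v := β * n) (V0 := v₀ * (per (E t) : ℝ) ^ 2)
        (c := ε / C * (per (E t) : ℝ) ^ 2 * kap (per (E t))) (ε := ε) h o1 hι ha (by
          rw [mul_assoc]
          calc _ ≤ ε / C * (C * a n) :=
                mul_le_mul_of_nonneg_left (hcmp _ b3.1 b3.2.1) (by positivity)
            _ = _ := by field_simp) D y r10 (fun x => by
          have h1 : (ballN t (R + 2) x : ℝ) ≤ ballN t ⌊ρ₂ / cn n⌋₊ x := by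
            exact_mod_cast ballN_mono t r9 x
          have h2 : (θ * √(n : ℝ)) ^ 2 ≤ (8 * (per (E t) : ℝ)) ^ 2 :=
            pow_le_pow_left₀ (by positivity) b3.1 2
          rw [mul_pow, hxx] at h2
          have h3 : v₀ * (θ ^ 2 * n) ≤ v₀ * (8 * (per (E t) : ℝ)) ^ 2 := by gcongr
          linarith [b2 x]) (fun x => le_trans (by exact_mod_cast ballN_mono t r8 x) (b1 x))
      refine le_trans (le_of_eq (by congr)) (g4.trans ?_)
      have g5 : (D : ℝ) * ((n + 2 - size (E t)) + rngN (E t) y + β * n +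
          badN (E t) (v₀ * (per (E t) : ℝ) ^ 2) (ε / C * (per (E t) : ℝ) ^ 2 * kap (per (E t)))) ≤
          D * (I₄ t + (3 * β * n + 2)) :=
        mul_le_mul_of_nonneg_left (by linarith [b3.2.2]) (Nat.cast_nonneg _)
      have g6 : 0 ≤ 4 * n * (I₁ t + (I₂ t + I₃ t)) := by positivity
      linarith)
  have hP : (0 : ℝ) < 12 ^ (n - 1) * 8 ^ 2 := by positivity
  have hcard : (Nat.card (RootedQuad n) : ℝ) = cLm 2 (n - 1) * (12 ^ (n - 1) * 8 ^ 2) := by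
    rw [card_rooted n hn, cLm, div_mul_cancel₀ _ hP.ne']
  have hsum : nS 2 (n - 1) (fun t => 4 * n * (I₁ t + (I₂ t + I₃ t)) +
      (D * I₄ t + D * (3 * β * n + 2))) ≤ 4 * n * (6 * e) * cLm 2 (n - 1) := by
    rw [nS_add, nS_mul, nS_add, nS_add, nS_add, nS_mul, nS_const]
    have c0 := cLm_nonneg 2 (n - 1)
    have w1 : 4 * n * (nS 2 (n - 1) I₁ + (nS 2 (n - 1) I₂ + nS 2 (n - 1) I₃)) ≤
        4 * n * (4 * e * cLm 2 (n - 1)) := by
      gcongr
      linarith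
    have w2 : D * nS 2 (n - 1) I₄ ≤ D * (β * n * cLm 2 (n - 1)) := by gcongr
    have w3 : D * β * (n * cLm 2 (n - 1)) ≤ e * (n * cLm 2 (n - 1)) := by gcongr
    have w4 : D * cLm 2 (n - 1) ≤ n * e * cLm 2 (n - 1) := by
      gcongr
      rwa [← div_le_iff₀ he]
    have w5 : 0 ≤ n * e * cLm 2 (n - 1) := by positivity
    nlinarith
  rw [nS, div_le_iff₀ hP] at hsum
  have h6 := le_of_mul_le_mul_left (key.trans (hsum.trans (le_of_eq (by
    rw [mul_assoc, mul_assoc (4 * (n : ℝ)), ← hcard])))) (by positivity : (0 : ℝ) < 4 * n)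
  refine le_trans ?_ heη
  rw [show 7 * e = 6 * e + e by ring, ENNReal.ofReal_add (by positivity) he.le]
  refine le_trans (measure_mono (t := {c | ∃ q : Quad n, Quot.mk _ q = c ∧
    ¬ NoTrap q (a n) ε r (q.tail q.root) ∧ (q.out (q.tail q.root)).card ≤ D} ∪
    {c | ∃ q : Quad n, Quot.mk _ q = c ∧ D < (q.out (q.tail q.root)).card}) fun c hc => ?_)
    ((measure_union_le _ _).trans (add_le_add (main_unif _ (by positivity) h6)
      (main_unif _ he.le hD)))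
  rcases le_or_gt ((Quot.out c).out ((Quot.out c).tail (Quot.out c).root)).card D with h | h
  · exact Or.inl ⟨_, Quot.out_eq c, hc, h⟩
  · exact Or.inr ⟨_, Quot.out_eq c, h⟩

end Pool.Agent.QL.NT
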