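import Pool.Agent.P.MP_7a6434d8_pr.QL.NT.Sub
import Pool.Agent.P.MP_7a6434d8_pr.QL.NT.Num
import Pool.Agent.P.MP_7a6434d8_pr.QL.NT.Num2

/-! First phase: up to a macroscopic perimeter. -/

open MeasureTheory ProbabilityTheory Filter Finset
open scoped ENNReal

namespace Pool.Agent.QL.NT

open Pool.Agent.P.MP_7a6434d8_pr Mp

theorem ph1_hh (L : ℕ) : 0 ≤ hh L := by
  have := le_hh L
  have := Real.sqrt_nonneg (L : ℝ)
  linarith

theorem ph1_T {L L₀ : ℕ} (h : L ≤ L₀) : 0 ≤ 3 * (L₀ * √(L₀ : ℝ)) * hh L - (L : ℝ) ^ 2 := by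
  have h0 : (0 : ℝ) ≤ L := L.cast_nonneg
  have h1 : (L : ℝ) ≤ L₀ := by exact_mod_cast h
  have h2 : (L : ℝ) * √(L : ℝ) ≤ L₀ * √(L₀ : ℝ) := by gcongr
  have h3 := mul_le_mul h2 (le_hh L) (Real.sqrt_nonneg _) (by positivity)
  rw [mul_assoc, Real.mul_self_sqrt h0] at h3
  linarith

theorem ph1_phi {a y V : ℝ} (ha : 0 ≤ a) (hy : 0 ≤ y) (hV : 0 < V) :
    min 1 ((a + y) / V) ≤ min 1 (a / V) + min 1 (y / V) := by
  have h1 : 0 ≤ a / V := by positivity
  have h2 : 0 ≤ y / V := by positivity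
  rw [add_div]
  rcases min_cases 1 (a / V) with h | h <;> rcases min_cases 1 (y / V) with h' | h' <;>
    rw [h.1, h'.1]
  · exact (min_le_left _ _).trans (by linarith)
  · exact (min_le_left _ _).trans (by linarith)
  · exact (min_le_left _ _).trans (by linarith)
  · exact min_le_right _ _

/-- the numerical step -/
theorem ph1_step {S φ dl c e₁ e₂ : ℝ} {L n : ℕ} {μ : ℕ → ℝ} (hφ : 0 ≤ φ) (hdl : 0 ≤ dl)
    (he : 0 ≤ e₁) (hμ : ∀ y, 0 ≤ μ y) (hT : ∀ j, 0 ≤ S * hh (L - j) - ((L - j : ℕ) : ℝ) ^ 2)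
    (hc : ((L : ℝ) + 1) ^ 2 + c * √((L : ℝ) + 1) ≤
      2 / 3 * ((L : ℝ) + 2) ^ 2 + 1 / 4 * ∑ j ∈ range (L + 1), w j * ((L - j : ℕ) : ℝ) ^ 2)
    (hv : ∑ j ∈ range (L + 1), ∑ y ∈ range n, cLm j y * μ y ≤ e₂)
    (hd : 4 / 3 * e₁ + e₂ / 4 ≤ dl * c) :
    2 / 3 * (hh (L + 2) * (φ + e₁) + dl * (S * hh (L + 2) - ((L : ℝ) + 2) ^ 2)) +
      1 / 4 * ∑ j ∈ range (L + 1), ∑ y ∈ range n, cLm j y *
        (hh (L - j) * (φ + μ y) + dl * (S * hh (L - j) - ((L - j : ℕ) : ℝ) ^ 2)) ≤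
      hh (L + 1) * φ + dl * (S * hh (L + 1) - ((L : ℝ) + 1) ^ 2) := by
  set r := √((L : ℝ) + 1) with hr
  have hL : (0 : ℝ) ≤ L := L.cast_nonneg
  have r0 : 0 ≤ r := Real.sqrt_nonneg _
  have h1 : hh (L + 2) ≤ 2 * r := by
    refine (hh_le _).trans (Real.sqrt_le_iff.2 ⟨by positivity, ?_⟩)
    rw [mul_pow, hr, Real.sq_sqrt (by positivity)]
    push_cast
    linarith
  have h2 : ∀ j, hh (L - j) ≤ r := fun j => (hh_le _).trans (Real.sqrt_le_sqrt (by
    have : ((L - j : ℕ) : ℝ) ≤ L := by exact_mod_cast Nat.sub_le L j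
    linarith))
  have h3 : ∑ j ∈ range (L + 1), ∑ y ∈ range n, cLm j y *
        (hh (L - j) * (φ + μ y) + dl * (S * hh (L - j) - ((L - j : ℕ) : ℝ) ^ 2)) ≤
      ∑ j ∈ range (L + 1), ((φ + dl * S) * (w j * hh (L - j)) -
        dl * (w j * ((L - j : ℕ) : ℝ) ^ 2) + r * ∑ y ∈ range n, cLm j y * μ y) := by
    refine sum_le_sum fun j _ => ?_
    have a0 : 0 ≤ hh (L - j) * φ + dl * (S * hh (L - j) - ((L - j : ℕ) : ℝ) ^ 2) :=
      add_nonneg (mul_nonneg (ph1_hh _) hφ) (mul_nonneg hdl (hT j))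
    have a1 := mul_le_mul_of_nonneg_right (sum_cLm j n) a0
    rw [sum_mul] at a1
    have a2 : ∑ y ∈ range n, cLm j y *
        (hh (L - j) * (φ + μ y) + dl * (S * hh (L - j) - ((L - j : ℕ) : ℝ) ^ 2)) ≤
        ∑ y ∈ range n, (cLm j y * (hh (L - j) * φ + dl * (S * hh (L - j) -
          ((L - j : ℕ) : ℝ) ^ 2)) + r * (cLm j y * μ y)) := sum_le_sum fun y _ => by
      have := mul_le_mul_of_nonneg_right (h2 j) (mul_nonneg (cLm_nonneg j y) (hμ y))
      linarith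
    rw [sum_add_distrib, ← mul_sum] at a2
    linarith
  rw [sum_add_distrib, sum_sub_distrib, ← mul_sum, ← mul_sum, ← mul_sum] at h3
  have h4 := mul_le_mul_of_nonneg_left hv r0
  have h5 := mul_le_mul_of_nonneg_left hc hdl
  have h6 := mul_le_mul_of_nonneg_left hd r0
  have h7 := mul_le_mul_of_nonneg_right h1 he
  rw [← hh_harm L]
  linarith

open Classical in
theorem ph1_ind {N V L₀ : ℕ} (hV : 1 ≤ V) (hN : 4 * V ≤ N) {dl c e₂ : ℝ} (hdl : 0 ≤ dl)
    (hc : ∀ L : ℕ, ((L : ℝ) + 1) ^ 2 + c * √((L : ℝ) + 1) ≤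
      2 / 3 * ((L : ℝ) + 2) ^ 2 + 1 / 4 * ∑ j ∈ range (L + 1), w j * ((L - j : ℕ) : ℝ) ^ 2)
    (hv : ∀ J M : ℕ, ∑ j ∈ range J, ∑ y ∈ range M, cLm j y * min 1 ((y : ℝ) / V) ≤ e₂)
    (hd : 4 / 3 * (1 / (V : ℝ)) + e₂ / 4 ≤ dl * c) (k : ℕ) : ∀ L m : ℕ, 2 * m + L < k →
    L ≤ L₀ → N ≤ 4 * m → m ≤ N →
    nS L m (fun t => if per (ex1 L₀ t) = L₀ ∧ N ≤ size (ex1 L₀ t) + V then 0 else 1) ≤
      288 / ((N : ℝ) ^ 2 * √(N : ℝ)) * (hh L * min 1 (((N : ℝ) - m) / V) +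
        dl * (3 * (L₀ * √(L₀ : ℝ)) * hh L - (L : ℝ) ^ 2)) := by
  have hV0 : (0 : ℝ) < V := by exact_mod_cast hV
  have hM : 0 ≤ 288 / ((N : ℝ) ^ 2 * √(N : ℝ)) := by positivity
  induction k with
  | zero => exact fun L m h => absurd h (Nat.not_lt_zero _)
  | succ k ih =>
    intro L m hk hL h4 hm
    have hm' : (0 : ℝ) ≤ N - m := sub_nonneg.2 (by exact_mod_cast hm)
    have hφ : 0 ≤ min 1 (((N : ℝ) - m) / V) := le_min zero_le_one (by positivity)
    have hT := mul_nonneg hdl (ph1_T hL)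
    have hR := mul_nonneg hM (add_nonneg (mul_nonneg (ph1_hh L) hφ) hT)
    have hle : nS L m (fun t => if per (ex1 L₀ t) = L₀ ∧ N ≤ size (ex1 L₀ t) + V then 0 else 1)
        ≤ cLm L m := nS_le fun t => by split_ifs <;> norm_num
    by_cases h1 : m + V ≤ N
    · have e : min 1 (((N : ℝ) - m) / V) = 1 := min_eq_left ((one_le_div hV0).2 (by
        have : (m : ℝ) + V ≤ N := by exact_mod_cast h1
        linarith))
      refine hle.trans ((cLm_big (N := N) (by omega) h4).trans ?_)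
      rw [e, div_mul_eq_mul_div]
      refine div_le_div_of_nonneg_right ?_ (by positivity)
      linarith [le_hh L]
    by_cases h2 : L = L₀
    · refine le_trans (nS_mono (G := fun _ => 0) fun t _ hp hs => ?_) ?_
      · have e : ex1 L₀ t = t := ex_stop (hp.trans h2)
        rw [e, if_pos ⟨hp.trans h2, by omega⟩]
      · rwa [nS_const, zero_mul]
    obtain _ | L := L
    · exact hle.trans ((cLm_zero (by omega)).trans_le hR)
    have hs := ex_step (fun L => L = L₀) (fun _ => False) (fun _ => False)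
      (fun s => if per s = L₀ ∧ N ≤ size s + V then 0 else 1)
      (fun s => by split_ifs <;> norm_num) L m (by omega) h2 not_false
    simp only [if_false] at hs
    refine le_trans hs ?_
    have hstep := ph1_step (S := 3 * (L₀ * √(L₀ : ℝ))) (n := m / 2 + 1)
      (μ := fun y => min 1 ((y : ℝ) / V)) (e₁ := 1 / (V : ℝ)) hφ hdl (by positivity)
      (fun y => le_min zero_le_one (by positivity))
      (fun j => ph1_T (L := L - j) (L₀ := L₀) (by omega)) (hc L) (hv _ _) hd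
    push_cast
    refine le_trans ?_ (mul_le_mul_of_nonneg_left hstep hM)
    rw [mul_add, mul_left_comm _ (2 / 3 : ℝ), mul_left_comm _ (1 / 4 : ℝ),
      mul_sum _ _ (288 / ((N : ℝ) ^ 2 * √(N : ℝ)))]
    refine add_le_add (mul_le_mul_of_nonneg_left ?_ (by norm_num))
      (mul_le_mul_of_nonneg_left (sum_le_sum fun j _ => ?_) (by norm_num))
    · refine (ih (L + 2) (m - 1) (by omega) (by omega) (by omega) (by omega)).trans
        (mul_le_mul_of_nonneg_left ?_ hM)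
      have e : (N : ℝ) - (m - 1 : ℕ) = N - m + 1 := by
        rw [Nat.cast_sub (by omega)]
        push_cast
        ring
      have := mul_le_mul_of_nonneg_left ((ph1_phi hm' zero_le_one hV0).trans
        (add_le_add le_rfl (min_le_right _ _))) (ph1_hh (L + 2))
      rw [e]
      push_cast
      linarith
    · rw [mul_sum]
      refine sum_le_sum fun y hy => ?_
      rw [mem_range] at hy
      rw [mul_left_comm]
      refine mul_le_mul_of_nonneg_left ?_ (cLm_nonneg j y)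
      refine (ih (L - j) (m - y) (by omega) (by omega) (by omega) (by omega)).trans
        (mul_le_mul_of_nonneg_left ?_ hM)
      have e : (N : ℝ) - (m - y : ℕ) = N - m + y := by
        rw [Nat.cast_sub (by omega)]
        ring
      have := mul_le_mul_of_nonneg_left (ph1_phi hm' y.cast_nonneg hV0) (ph1_hh (L - j))
      rw [e]
      linarith

open Classical in
theorem phase1 : ∃ C : ℝ, 0 < C ∧ ∀ N V L₀ : ℕ, 2 ≤ L₀ → 1 ≤ V → 4 * V ≤ N →
    nS 2 N (fun t => if per (ex1 L₀ t) = L₀ ∧ N ≤ size (ex1 L₀ t) + V then 0 else 1) ≤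
      C * (L₀ * √(L₀ : ℝ)) / (√(V : ℝ) * √(√(V : ℝ))) * cLm 2 N := by
  obtain ⟨c, hc0, hc⟩ := sq_sub
  obtain ⟨C, hC0, hC⟩ := volmin
  obtain ⟨c₂, hc₂, h₂⟩ := cLm_two
  refine ⟨288 * 6 * (4 / 3 + C / 4) / (c * c₂), by positivity, fun N V L₀ hL hV hN => ?_⟩
  have hV1 : (1 : ℝ) ≤ V := by exact_mod_cast hV
  have hN0 : (0 : ℝ) < N := by exact_mod_cast (by omega : 0 < N)
  have r1 : 1 ≤ √(V : ℝ) := Real.one_le_sqrt.2 hV1
  have r2 : 1 ≤ √(√(V : ℝ)) := Real.one_le_sqrt.2 r1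
  set ρ := √(V : ℝ) * √(√(V : ℝ)) with hρ
  have ρ0 : 0 < ρ := by positivity
  have ρV : ρ ≤ V := by
    have : √(√(V : ℝ)) ≤ √(V : ℝ) :=
      Real.sqrt_le_sqrt (Real.sqrt_le_iff.2 ⟨by linarith, by nlinarith⟩)
    have h := mul_le_mul_of_nonneg_left this (zero_le_one.trans r1)
    rwa [Real.mul_self_sqrt (by linarith)] at h
  have hd : 4 / 3 * (1 / (V : ℝ)) + C / ρ / 4 ≤ (4 / 3 + C / 4) / (c * ρ) * c := by
    have := one_div_le_one_div_of_le ρ0 ρV
    have e : (4 / 3 + C / 4) / (c * ρ) * c = 4 / 3 * (1 / ρ) + C / ρ / 4 := by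
      field_simp
    rw [e]
    linarith
  refine (ph1_ind hV hN (by positivity) hc (hC V hV1) hd _ 2 N (Nat.lt_succ_self _) hL
    (by omega) le_rfl).trans ?_
  have S0 : 0 ≤ L₀ * √(L₀ : ℝ) := by positivity
  set S := L₀ * √(L₀ : ℝ)
  have h2 : hh 2 ≤ 2 := (hh_le 2).trans (Real.sqrt_le_iff.2 ⟨by norm_num, by norm_num⟩)
  have h3 : 3 * S * hh 2 - ((2 : ℕ) : ℝ) ^ 2 ≤ 6 * S := by
    have := mul_le_mul_of_nonneg_left h2 S0
    have := sq_nonneg ((2 : ℕ) : ℝ)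
    linarith
  rw [sub_self, zero_div, min_eq_right zero_le_one, mul_zero, zero_add]
  refine le_trans ?_ (mul_le_mul_of_nonneg_left (h₂ N (by omega)) (by positivity))
  refine (mul_le_mul_of_nonneg_left (mul_le_mul_of_nonneg_left h3 (by positivity))
    (by positivity)).trans (le_of_eq ?_)
  field_simp

end Pool.Agent.QL.NT
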