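import Pool.Agent.P.MP_7a6434d8_pr.QL.NT.Defs
import Pool.Agent.P.MP_7a6434d8_pr.XMom

/-! Root decomposition at fixed size. -/

open MeasureTheory ProbabilityTheory Filter Finset
open scoped ENNReal

namespace Pool.Agent.QL.NT

open Pool.Agent.P.MP_7a6434d8_pr Mp

theorem sum_succ (L m : ℕ) (F : Mp → ℝ) : ∑ t ∈ countaT (L + 1) m, F t =
    (if m = 0 then 0 else ∑ t ∈ countaT (L + 2) (m - 1), F (face t)) +
      ∑ j ∈ range (L + 1), ∑ p ∈ antidiagonal m, ∑ a ∈ countaT (L - j) p.1,
        ∑ b ∈ countaT j p.2, F (bridge a b) := by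
  classical
  set A : Finset Mp := if m = 0 then ∅ else countaT (L + 2) (m - 1) with hA
  set B : Finset (Σ _ : ℕ × ℕ × ℕ, Mp × Mp) := (range (L + 1) ×ˢ antidiagonal m).sigma
    (fun x => countaT (L - x.1) x.2.1 ×ˢ countaT x.1 x.2.2) with hB
  have hcA : (if m = 0 then 0 else ∑ t ∈ countaT (L + 2) (m - 1), F (face t))
      = ∑ t ∈ A, F (face t) := by
    rw [hA]
    split_ifs <;> simp
  have hcB : ∑ j ∈ range (L + 1), ∑ p ∈ antidiagonal m, ∑ a ∈ countaT (L - j) p.1,
      ∑ b ∈ countaT j p.2, F (bridge a b) = ∑ x ∈ B, F (bridge x.2.1 x.2.2) := by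
    rw [hB, sum_sigma, sum_product]
    simp only [sum_product]
  have memA : ∀ t, t ∈ A ↔ face t ∈ countaT (L + 1) m := by
    intro t
    rw [hA, counta_mem]
    simp only [ok, per, size]
    split_ifs with h
    · simp only [notMem_empty, false_iff]
      omega
    · rw [counta_mem]
      constructor
      · rintro ⟨h1, h2, h3⟩
        exact ⟨⟨h1, by omega⟩, by omega, by omega⟩
      · rintro ⟨⟨h1, h2⟩, h3, h4⟩
        exact ⟨h1, by omega, by omega⟩
  have hinjB : Set.InjOn (fun x : (Σ _ : ℕ × ℕ × ℕ, Mp × Mp) => bridge x.2.1 x.2.2) B := by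
    rintro ⟨⟨j, p, q⟩, a, b⟩ hx ⟨⟨j', p', q'⟩, a', b'⟩ hy hxy
    simp only [hB, coe_sigma, Set.mem_sigma_iff, mem_coe, mem_product, counta_mem] at hx hy
    simp only [bridge.injEq] at hxy
    obtain ⟨rfl, rfl⟩ := hxy
    obtain ⟨-, ⟨-, -, h1⟩, -, h2, h3⟩ := hx
    obtain ⟨-, ⟨-, -, h1'⟩, -, h2', h3'⟩ := hy
    subst h1 h2 h3
    subst h1' h2' h3'
    rfl
  have hdisj : Disjoint (A.image face)
      (B.image (fun x : (Σ _ : ℕ × ℕ × ℕ, Mp × Mp) => bridge x.2.1 x.2.2)) := by
    rw [disjoint_left]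
    intro t h1 h2
    obtain ⟨s, -, rfl⟩ := mem_image.1 h1
    obtain ⟨x, -, hx⟩ := mem_image.1 h2
    cases hx
  rw [hcA, hcB, ← sum_image (s := A) (g := face) (f := F) (fun _ _ _ _ h => face.inj h),
    ← sum_image (f := F) hinjB, ← sum_union hdisj]
  congr 1
  ext t
  rw [mem_union, mem_image, mem_image]
  constructor
  · intro ht
    cases t with
    | pt =>
      have := ((counta_mem _ _ _).1 ht).2.1
      simp [per] at this
    | face s => exact Or.inl ⟨s, (memA s).2 ht, rfl⟩
    | bridge a b =>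
      obtain ⟨⟨h1, h2⟩, h3, h4⟩ := (counta_mem _ _ _).1 ht
      simp only [per, size] at h3 h4
      refine Or.inr ⟨⟨⟨per b, size a, size b⟩, a, b⟩, ?_, rfl⟩
      simp only [hB, mem_sigma, mem_product, mem_range, HasAntidiagonal.mem_antidiagonal,
        counta_mem]
      exact ⟨⟨by omega, h4⟩, ⟨h1, by omega, trivial⟩, h2, trivial, trivial⟩
  · rintro (⟨s, hs, rfl⟩ | ⟨⟨⟨j, p, q⟩, a, b⟩, hx, rfl⟩)
    · exact (memA s).1 hs
    · simp only [hB, mem_sigma, mem_product, mem_range, HasAntidiagonal.mem_antidiagonal,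
        counta_mem] at hx
      obtain ⟨⟨h0, h1⟩, ⟨h2, h3, h4⟩, h5, h6, h7⟩ := hx
      rw [counta_mem]
      simp only [ok, per, size]
      exact ⟨⟨h2, h5⟩, by omega, by omega⟩

theorem nS_const (L m : ℕ) (c : ℝ) : nS L m (fun _ => c) = c * cLm L m := by
  unfold nS cLm
  rw [counta_cnt_true, sum_const, nsmul_eq_mul]
  ring

theorem nS_mono {L m : ℕ} {F G : Mp → ℝ}
    (h : ∀ t, ok t → per t = L → size t = m → F t ≤ G t) : nS L m F ≤ nS L m G := by
  unfold nS
  refine div_le_div_of_nonneg_right (sum_le_sum fun t ht => ?_) (by positivity)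
  obtain ⟨h1, h2, h3⟩ := (counta_mem L m t).1 ht
  exact h t h1 h2 h3

theorem nS_nonneg {L m : ℕ} {F : Mp → ℝ} (h : ∀ t, 0 ≤ F t) : 0 ≤ nS L m F :=
  div_nonneg (sum_nonneg fun t _ => h t) (by positivity)

theorem nS_add (L m : ℕ) (F G : Mp → ℝ) :
    nS L m (fun t => F t + G t) = nS L m F + nS L m G := by
  unfold nS
  rw [sum_add_distrib, add_div]

theorem nS_mul (L m : ℕ) (c : ℝ) (F : Mp → ℝ) :
    nS L m (fun t => c * F t) = c * nS L m F := by
  unfold nS
  rw [← mul_sum, mul_div_assoc]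

theorem nS_le {L m : ℕ} {F : Mp → ℝ} (h : ∀ t, F t ≤ 1) : nS L m F ≤ cLm L m := by
  have := nS_mono (L := L) (m := m) (F := F) (G := fun _ => 1) fun t _ _ _ => h t
  rwa [nS_const, one_mul] at this

theorem cLm_zero {m : ℕ} (hm : 1 ≤ m) : cLm 0 m = 0 := by
  unfold cLm
  rw [cnt_zero, if_neg (by omega)]
  simp

theorem rec_face {st ki me : ℕ → Prop} {L : ℕ} (h1 : ¬ st (L + 1)) (h2 : ¬ ki (L + 1)) {t : Mp}
    (ht : per t = L + 2) : ex st ki me (face t) = ex st ki me t := by
  have hp : per (face t) = L + 1 := by simp only [per]; omega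
  rw [ex, hp, if_neg h1, if_neg h2]

open Classical in
theorem rec_bridge {st ki me : ℕ → Prop} {L j : ℕ} (h1 : ¬ st (L + 1)) (h2 : ¬ ki (L + 1))
    (hj : j < L + 1) {p : ℕ × ℕ} {a b : Mp} (ha : a ∈ countaT (L - j) p.1)
    (hb : b ∈ countaT j p.2) : ex st ki me (bridge a b) =
      if p.2 ≤ p.1 then (if me j then a else ex st ki me a)
      else (if me (L - j) then b else ex st ki me b) := by
  obtain ⟨-, a2, a3⟩ := (counta_mem _ _ _).1 ha
  obtain ⟨-, b2, b3⟩ := (counta_mem _ _ _).1 hb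
  have hp : per (bridge a b) = L + 1 := by simp only [per]; omega
  rw [ex, hp, if_neg h1, if_neg h2, a2, a3, b2, b3]

theorem rec_den (L m : ℕ) : (0 : ℝ) < 12 ^ m * 8 ^ L := by positivity

/-- the explored disc is uniform given its perimeter and size -/
theorem ex_markov (st ki me : ℕ → Prop) (F : Mp → ℝ) (β : ℝ)
    (h : ∀ L m, nS L m F ≤ β * cLm L m) (L m : ℕ) :
    nS L m (fun t => F (ex st ki me t)) ≤ β * cLm L m := by
  classical
  have h' : ∀ L m, ∑ t ∈ countaT L m, F t ≤ ∑ _t ∈ countaT L m, β := fun L m => by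
    have := h L m
    rw [← nS_const] at this
    exact (div_le_div_iff_of_pos_right (rec_den L m)).1 this
  have hpt : F pt ≤ β := by
    have h0 : countaT 0 0 = {pt} := by
      ext t
      rw [counta_mem, mem_singleton]
      exact ⟨fun ⟨h1, h2, _⟩ => eq_pt_of_per_zero t h1 h2, fun h => h ▸ ⟨trivial, rfl, rfl⟩⟩
    simpa [h0] using h' 0 0
  have key : ∀ n L m : ℕ, 2 * m + L < n →
      ∑ t ∈ countaT L m, F (ex st ki me t) ≤ ∑ _t ∈ countaT L m, β := by
    intro n
    induction n with
    | zero => intro L m h0; omega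
    | succ n ih =>
      intro L m hn
      cases L with
      | zero =>
        refine le_trans (le_of_eq (sum_congr rfl fun t ht => ?_)) (h' 0 m)
        obtain ⟨h1, h2, -⟩ := (counta_mem _ _ _).1 ht
        rw [eq_pt_of_per_zero t h1 h2, ex]
      | succ L =>
        by_cases h1 : st (L + 1)
        · refine le_trans (le_of_eq (sum_congr rfl fun t ht => ?_)) (h' (L + 1) m)
          obtain ⟨-, g2, -⟩ := (counta_mem _ _ _).1 ht
          cases t with
          | pt => rw [ex]
          | face s => rw [ex, g2, if_pos h1]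
          | bridge a b => rw [ex, g2, if_pos h1]
        by_cases h2 : ki (L + 1)
        · refine sum_le_sum fun t ht => le_trans (le_of_eq ?_) hpt
          obtain ⟨-, g2, -⟩ := (counta_mem _ _ _).1 ht
          cases t with
          | pt => rw [ex]
          | face s => rw [ex, g2, if_neg h1, if_pos h2]
          | bridge a b => rw [ex, g2, if_neg h1, if_pos h2]
        rw [sum_succ L m fun t => F (ex st ki me t), sum_succ L m fun _ => β]
        refine add_le_add ?_ (sum_le_sum fun j hj => sum_le_sum fun p hp => ?_)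
        · split_ifs with hm
          · exact le_rfl
          · refine le_trans (le_of_eq (sum_congr rfl fun t ht => ?_))
              (ih (L + 2) (m - 1) (by omega))
            rw [rec_face h1 h2 ((counta_mem _ _ _).1 ht).2.1]
        · have hj' := mem_range.1 hj
          have hp' := HasAntidiagonal.mem_antidiagonal.1 hp
          rw [sum_congr rfl fun a ha => sum_congr rfl fun b hb => by
            rw [rec_bridge h1 h2 hj' ha hb]]
          by_cases hc : p.2 ≤ p.1
          · simp only [if_pos hc]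
            rw [sum_comm, sum_comm (f := fun _ _ => β)]
            refine sum_le_sum fun b _ => ?_
            split_ifs
            · exact h' _ _
            · exact ih _ _ (by omega)
          · simp only [if_neg hc]
            refine sum_le_sum fun a _ => ?_
            split_ifs
            · exact h' _ _
            · exact ih _ _ (by omega)
  rw [← nS_const]
  exact div_le_div_of_nonneg_right (key _ L m (Nat.lt_succ_self _)) (rec_den L m).le

theorem rec_anti (m : ℕ) (B : ℕ → ℝ) (hB : ∀ y, 0 ≤ B y) :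
    ∑ p ∈ antidiagonal m, (if p.1 ≤ p.2 then B p.1 else 0) ≤ ∑ y ∈ range (m / 2 + 1), B y := by
  rw [Finset.Nat.sum_antidiagonal_eq_sum_range_succ_mk, ← sum_filter]
  refine sum_le_sum_of_subset_of_nonneg (fun k hk => ?_) fun y _ _ => hB y
  have := (mem_filter.1 hk).2
  simp only at this
  rw [mem_range]
  omega

theorem rec_prod (i j y y' : ℕ) (f : Mp → ℝ) :
    (∑ a ∈ countaT i y, ∑ _b ∈ countaT j y', f a) / (12 ^ (y + y') * 8 ^ (i + j + 1))
      = 1 / 8 * (cLm j y' * nS i y f) := by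
  unfold cLm nS
  simp only [sum_const, nsmul_eq_mul]
  rw [← mul_sum, counta_cnt_true, pow_add, pow_add, pow_add]
  field_simp

open Classical in
/-- one step of the exploration -/
theorem ex_step (st ki me : ℕ → Prop) (G : Mp → ℝ) (hG : ∀ s, 0 ≤ G s) (L m : ℕ) (hm : 1 ≤ m)
    (h1 : ¬ st (L + 1)) (h2 : ¬ ki (L + 1)) :
    nS (L + 1) m (fun t => G (ex st ki me t)) ≤
      2 / 3 * nS (L + 2) (m - 1) (fun t => G (ex st ki me t)) +
        1 / 4 * ∑ j ∈ range (L + 1), ∑ y ∈ range (m / 2 + 1), cLm j y *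
          (if me j then nS (L - j) (m - y) G
            else nS (L - j) (m - y) fun t => G (ex st ki me t)) := by
  obtain ⟨A, hA⟩ : ∃ A : ℕ → ℕ → ℝ, ∀ j y, A j y = cLm j y *
      (if me j then nS (L - j) (m - y) G
        else nS (L - j) (m - y) fun t => G (ex st ki me t)) := ⟨_, fun _ _ => rfl⟩
  have hA0 : ∀ j y, 0 ≤ A j y := fun j y => by
    rw [hA]
    refine mul_nonneg (cLm_nonneg _ _) ?_
    split_ifs
    · exact nS_nonneg hG
    · exact nS_nonneg fun t => hG _
  simp only [← hA]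
  have hterm : ∀ j ∈ range (L + 1), ∀ p ∈ antidiagonal m,
      (∑ a ∈ countaT (L - j) p.1, ∑ b ∈ countaT j p.2, G (ex st ki me (bridge a b)))
        / (12 ^ m * 8 ^ (L + 1)) ≤ 1 / 8 * ((if p.2 ≤ p.1 then A j p.2 else 0)
          + (if p.1 ≤ p.2 then A (L - j) p.1 else 0)) := by
    intro j hj p hp
    have hj' := mem_range.1 hj
    have hp' := HasAntidiagonal.mem_antidiagonal.1 hp
    rw [sum_congr rfl fun a ha => sum_congr rfl fun b hb => by
      rw [rec_bridge h1 h2 hj' ha hb]]
    by_cases hc : p.2 ≤ p.1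
    · have e1 := rec_prod (L - j) j p.1 p.2 fun a => G (if me j then a else ex st ki me a)
      rw [hp', show L - j + j + 1 = L + 1 by omega] at e1
      simp only [if_pos hc]
      rw [e1]
      have e2 : cLm j p.2 * nS (L - j) p.1 (fun a => G (if me j then a else ex st ki me a))
          = A j p.2 := by
        rw [hA, show m - p.2 = p.1 by omega]
        split_ifs <;> rfl
      have e3 : 0 ≤ (if p.1 ≤ p.2 then A (L - j) p.1 else 0) := by
        split_ifs
        · exact hA0 _ _
        · exact le_rfl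
      rw [e2]
      linarith
    · have e1 := rec_prod j (L - j) p.2 p.1 fun a => G (if me (L - j) then a else ex st ki me a)
      rw [add_comm p.2, hp', show j + (L - j) + 1 = L + 1 by omega] at e1
      simp only [if_neg hc]
      rw [sum_comm, e1, if_pos (by omega), zero_add, hA, show m - p.1 = p.2 by omega,
        show L - (L - j) = j by omega]
      split_ifs <;> exact le_rfl
  have hrow : ∀ j ∈ range (L + 1), (∑ p ∈ antidiagonal m, ∑ a ∈ countaT (L - j) p.1,
      ∑ b ∈ countaT j p.2, G (ex st ki me (bridge a b))) / (12 ^ m * 8 ^ (L + 1))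
      ≤ 1 / 8 * (∑ y ∈ range (m / 2 + 1), A j y + ∑ y ∈ range (m / 2 + 1), A (L - j) y) := by
    intro j hj
    rw [sum_div]
    refine (sum_le_sum (hterm j hj)).trans ?_
    rw [← mul_sum, sum_add_distrib]
    refine mul_le_mul_of_nonneg_left (add_le_add ?_ (rec_anti m _ (hA0 _))) (by norm_num)
    rw [← Finset.Nat.sum_antidiagonal_swap]
    exact rec_anti m _ (hA0 j)
  have hrefl := sum_range_reflect (fun j => ∑ y ∈ range (m / 2 + 1), A j y) (L + 1)
  simp only [Nat.add_sub_cancel] at hrefl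
  rw [nS, sum_succ L m fun t => G (ex st ki me t), if_neg (by omega), add_div]
  refine add_le_add (le_of_eq ?_) ?_
  · rw [sum_congr rfl fun t ht => by rw [rec_face h1 h2 ((counta_mem _ _ _).1 ht).2.1], nS]
    obtain ⟨k, rfl⟩ : ∃ k, m = k + 1 := ⟨m - 1, by omega⟩
    rw [Nat.add_sub_cancel]
    field_simp
    ring
  · rw [sum_div]
    refine (sum_le_sum hrow).trans (le_of_eq ?_)
    rw [← mul_sum, sum_add_distrib, hrefl]
    ring

theorem dom_of_IE {χ : Mp → ℝ} {β : ℝ} {i : ℕ} (hχ : ∀ s, 0 ≤ χ s) (hβ : 0 ≤ β)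
    (h : IE i (fun s => ENNReal.ofReal (χ s)) ≤ ENNReal.ofReal (β * Z i)) : Dom χ β i := by
  intro M
  rw [IE_by_size] at h
  have h1 := (ENNReal.sum_le_tsum (range M)).trans h
  have h2 : ∑ n ∈ range M, (12 : ℝ≥0∞)⁻¹ ^ n * ∑ t ∈ countaT i n, ENNReal.ofReal (χ t)
      = ENNReal.ofReal (∑ n ∈ range M, nS i n χ * 8 ^ i) := by
    rw [ENNReal.ofReal_sum_of_nonneg fun n _ => mul_nonneg (nS_nonneg hχ) (by positivity)]
    refine sum_congr rfl fun n _ => ?_
    rw [m1_wt_eq, ← ENNReal.ofReal_sum_of_nonneg fun t _ => hχ t,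
      ← ENNReal.ofReal_mul (by positivity), nS]
    congr 1
    field_simp
  rw [h2, ENNReal.ofReal_le_ofReal_iff (mul_nonneg hβ (Z_pos i).le), ← sum_mul, Z_eq_w,
    ← mul_assoc] at h1
  exact le_of_mul_le_mul_right h1 (by positivity)

theorem sum_cLm (j M : ℕ) : ∑ y ∈ range M, cLm j y ≤ w j := by
  have h := dom_of_IE (χ := fun _ => 1) (β := 1) (i := j) (fun _ => zero_le_one) zero_le_one
    (by rw [IE_const]; simp) M
  simpa only [nS_const, one_mul] using h

theorem sum_cLm_mul (j M : ℕ) :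
    ∑ y ∈ range M, cLm j y * y ≤ (j : ℝ) * (j + 1) / 2 * w j := by
  have h := dom_of_IE (χ := fun t => (size t : ℝ)) (β := (j : ℝ) * (j + 1) / 2) (i := j)
    (fun _ => Nat.cast_nonneg _) (by positivity)
    (by simpa only [ENNReal.ofReal_natCast] using IE_size j) M
  refine le_trans (sum_le_sum fun y _ => ?_) h
  rw [mul_comm, ← nS_const]
  exact nS_mono fun t _ _ h3 => by rw [h3]

end Pool.Agent.QL.NT
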