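import Pool.Agent.P.MP_7a6434d8_pr.QL.NT.Rec

/-! Range of the distances to the boundary; degree of the root. -/

open MeasureTheory ProbabilityTheory Filter Finset
open scoped ENNReal

namespace Pool.Agent.QL.NT

open Pool.Agent.P.MP_7a6434d8_pr Mp

theorem rng_unif {X : Type} [Fintype X] [MeasurableSpace X] [DiscreteMeasurableSpace X]
    (g : X → ℝ≥0∞) :
    ∫⁻ x, g x ∂(uniformOn Set.univ : Measure X) = (∑ x, g x) / Fintype.card X := by
  rw [lintegral_fintype, div_eq_mul_inv, sum_mul]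
  refine sum_congr rfl fun x _ => ?_
  rw [uniformOn_univ, Measure.count_singleton, one_div]

theorem lintegral_smpl {X : Type} [Fintype X] [Nonempty X] [MeasurableSpace X]
    [DiscreteMeasurableSpace X] (f : X → ℝ≥0∞) :
    ∫⁻ s, f (s 0) ∂smpl X = (∑ x, f x) / Fintype.card X := by
  unfold smpl
  exact ((measurePreserving_eval_infinitePi
    (fun _ : ℕ => (uniformOn Set.univ : Measure X)) 0).lintegral_comp
    (f := f) Measurable.of_discrete).trans (rng_unif f)

theorem lintegral_smpl2 {X : Type} [Fintype X] [Nonempty X] [MeasurableSpace X]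
    [DiscreteMeasurableSpace X] (f : X → X → ℝ≥0∞) :
    ∫⁻ s, f (s 0) (s 1) ∂smpl X = (∑ x, ∑ y, f x y) / (Fintype.card X : ℝ≥0∞) ^ 2 := by
  unfold smpl
  have h1 := Measure.infinitePi_map_eval_prod
    (P := fun _ : ℕ => (uniformOn Set.univ : Measure X)) (i := 0) (j := 1) zero_ne_one
  have h2 : Measurable fun p : X × X => f p.1 p.2 := Measurable.of_discrete
  have h3 := lintegral_map (μ := Measure.infinitePi fun _ : ℕ => (uniformOn Set.univ : Measure X))
    h2 (g := fun ω : ℕ → X => (ω 0, ω 1)) (by fun_prop)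
  refine h3.symm.trans ?_
  rw [h1, lintegral_prod _ h2.aemeasurable, rng_unif]
  simp only [rng_unif, div_eq_mul_inv, ← sum_mul]
  rw [mul_assoc, sq, ENNReal.mul_inv (Or.inr (ENNReal.natCast_ne_top _))
    (Or.inl (ENNReal.natCast_ne_top _))]

theorem rng_bound (hQ : QVStmt) : ∃ C : ℝ, 0 < C ∧ ∀ L m y : ℕ, 1 ≤ L → 1 ≤ y →
    nS L m (fun t => (rngN t y : ℝ)) ≤ C * L / (y : ℝ) ^ 2 * (m + L + 1) * cLm L m := by
  classical
  obtain ⟨C, hC, H⟩ := hQ
  refine ⟨C, hC, fun L m y hL hy => ?_⟩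
  have h1 := (H L m hL).2 0 y hy
  have h2 : AVS L m (fun t s => if ∃ p p', p ≤ 2 * L ∧ p' ≤ 2 * L ∧
      dW t (s 0) (bv t p) + y ≤ dW t (s 0) (bv t p') then 1 else 0) =
      ((∑ t ∈ countaT L m, rngN t y : ℕ) : ℝ≥0∞) / ((m + L + 1 : ℕ) : ℝ≥0∞) /
        ((countaT L m).card : ℝ≥0∞) := by
    unfold AVS AV
    congr 1
    rw [Nat.cast_sum, div_eq_mul_inv, sum_mul]
    refine sum_congr rfl fun t ht => ?_
    obtain ⟨a1, a2, a3⟩ := (counta_mem L m t).1 ht
    refine (lintegral_smpl (fun v : V t => if ∃ p p', p ≤ 2 * L ∧ p' ≤ 2 * L ∧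
      dW t v (bv t p) + y ≤ dW t v (bv t p') then (1 : ℝ≥0∞) else 0)).trans ?_
    rw [card_V t a1, a2, a3, sum_boole, div_eq_mul_inv, rngN, a2]
  have h0 : 0 ≤ C * L / (y : ℝ) ^ 2 := by positivity
  have h3 : ((∑ t ∈ countaT L m, rngN t y : ℕ) : ℝ) ≤
      C * L / (y : ℝ) ^ 2 * (countaT L m).card * (m + L + 1 : ℕ) := by
    rcases (countaT L m).eq_empty_or_nonempty with he | he
    · simp [he]
    · have h4 : ((countaT L m).card : ℝ≥0∞) ≠ 0 := Nat.cast_ne_zero.2 he.card_pos.ne'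
      have h5 : ((m + L + 1 : ℕ) : ℝ≥0∞) ≠ 0 := Nat.cast_ne_zero.2 (Nat.succ_ne_zero _)
      have h6 := h2.symm.le.trans h1
      rw [ENNReal.div_le_iff h4 (ENNReal.natCast_ne_top _),
        ENNReal.div_le_iff h5 (ENNReal.natCast_ne_top _), ← ENNReal.ofReal_natCast,
        ← ENNReal.ofReal_natCast, ← ENNReal.ofReal_natCast, ← ENNReal.ofReal_mul h0,
        ← ENNReal.ofReal_mul (by positivity)] at h6
      exact (ENNReal.ofReal_le_ofReal_iff (by positivity)).1 h6
  rw [nS, cLm, counta_cnt_true, ← mul_div_assoc]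
  refine div_le_div_of_nonneg_right ?_ (by positivity)
  push_cast at h3
  linarith

end Pool.Agent.QL.NT
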