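import Pool.Agent.P.MP_7a6434d8_pr.QL.NT.Defs
import Pool.Agent.P.MP_7a6434d8_pr.XDeg

/-! Subdiscs. -/

open MeasureTheory ProbabilityTheory Filter Finset
open scoped ENNReal

namespace Pool.Agent.QL.NT

open Pool.Agent.P.MP_7a6434d8_pr Mp

theorem sub_refl (t : Mp) : Sub t t id :=
  ⟨Function.injective_id, fun _ h => h, fun _ _ _ => rfl, fun _ _ => rfl,
    fun _ _ z h => ⟨z, rfl, h⟩, fun _ _ h => h⟩

theorem sub_not_inn (x : V pt) : ¬ Inn pt x := fun h => h 0 (Nat.zero_le _) rfl

theorem sub_pt (t : Mp) : Sub pt t fun _ => bv t 0 :=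
  ⟨fun _ _ _ => rfl, fun x h => (sub_not_inn x h).elim, fun x h => (sub_not_inn x h).elim,
    fun x h => (sub_not_inn x h).elim, fun x h => (sub_not_inn x h).elim,
    fun _ _ h => False.elim h⟩

theorem Sub.trans {r s t : Mp} {ι : V r → V s} {ι' : V s → V t} (h : Sub r s ι)
    (h' : Sub s t ι') : Sub r t fun x => ι' (ι x) := by
  refine ⟨h'.inj.comp h.inj, fun x hx => h'.inn _ (h.inn x hx), fun x hx w => ?_,
    fun x hx => ?_, fun x hx z hz => ?_, fun x y hxy => h'.map _ _ (h.map x y hxy)⟩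
  · rw [h'.lap _ (h.inn x hx), h.lap x hx]
  · rw [h'.dg _ (h.inn x hx), h.dg x hx]
  · obtain ⟨y, rfl, hy⟩ := h'.out _ (h.inn x hx) z hz
    obtain ⟨y', rfl, hy'⟩ := h.out x hx y hy
    exact ⟨y', rfl, hy'⟩

open Classical in
theorem sub_lap_face (t : Mp) (w : V t → ℝ) (x : V t) (h0 : bv t 0 ≠ x) (h3 : bv t 3 ≠ x) :
    ND.lapV (face t) w x = ND.lapV t w x := by
  have e : ND.lapV (face t) w x = ∑ d : Dt t ⊕ Bool,
      if org (face t) d = x then w x - w (org (face t) (al (face t) d)) else 0 := rfl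
  rw [e, Fintype.sum_sum_type, Fintype.sum_bool]
  have e0 : ¬ org (face t) (Sum.inr true) = x := h0
  have e3 : ¬ org (face t) (Sum.inr false) = x := h3
  rw [if_neg e0, if_neg e3, add_zero, add_zero]
  rfl

open Classical in
theorem sub_lap_bridge (a b : Mp) (w : V a ⊕ V b → ℝ) (x : V a ⊕ V b)
    (h0 : Sum.inl (bv a 0) ≠ x) (h1 : Sum.inr (bv b 0) ≠ x) :
    ND.lapV (bridge a b) w x =
      (∑ d : Dt a, if (Sum.inl (org a d) : V a ⊕ V b) = x then
        w x - w (Sum.inl (org a (al a d))) else 0) +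
      ∑ d : Dt b, if (Sum.inr (org b d) : V a ⊕ V b) = x then
        w x - w (Sum.inr (org b (al b d))) else 0 := by
  have e : ND.lapV (bridge a b) w x = ∑ d : (Dt a ⊕ Dt b) ⊕ Bool,
      if org (bridge a b) d = x then w x - w (org (bridge a b) (al (bridge a b) d)) else 0 := rfl
  rw [e, Fintype.sum_sum_type, Fintype.sum_bool, Fintype.sum_sum_type]
  have e0 : ¬ org (bridge a b) (Sum.inr true) = x := h0
  have e3 : ¬ org (bridge a b) (Sum.inr false) = x := h1
  rw [if_neg e0, if_neg e3, add_zero, add_zero]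
  congr 1 <;> refine Finset.sum_congr rfl fun d _ => ?_ <;> congr

theorem sub_face {t : Mp} (ht : ok (face t)) : Sub t (face t) fun x => x := by
  have h2 : 2 ≤ per t := ht.2
  have h0 : ∀ x, Inn t x → bv t 0 ≠ x := fun x hx => hx 0 (Nat.zero_le _)
  have h3 : ∀ x, Inn t x → bv t 3 ≠ x := fun x hx => hx 3 (by omega)
  refine ⟨fun _ _ h => h, fun x hx p hp => ?_, fun x hx w => sub_lap_face t w x (h0 x hx) (h3 x hx),
    fun x hx => xdeg_face_eq t x (h0 x hx) (h3 x hx), fun x hx z hz => ?_, fun x y h => Or.inl h⟩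
  · have hp' : p ≤ 2 * (per t - 1) := hp
    change (if p = 0 then bv t 0 else bv t (p + 2)) ≠ x
    split_ifs
    · exact h0 x hx
    · exact hx _ (by omega)
  · rcases hz with h | h | h
    · exact ⟨z, rfl, h⟩
    · exact (h0 x hx h.1.symm).elim
    · exact (h3 x hx h.1.symm).elim

theorem sub_left (a b : Mp) : Sub a (bridge a b) Sum.inl := by
  have h0 : ∀ x, Inn a x → bv a 0 ≠ x := fun x hx => hx 0 (Nat.zero_le _)
  refine ⟨Sum.inl_injective, fun x hx p hp => ?_, fun x hx w => ?_, fun x hx => ?_,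
    fun x hx z hz => ?_, fun x y h => h⟩
  · have hp' : p ≤ 2 * (per a + per b + 1) := hp
    change (if p = 0 then Sum.inl (bv a 0) else if p ≤ 2 * per b + 1 then Sum.inr (bv b (p - 1))
      else Sum.inl (bv a (p - 2 * per b - 2)) : V a ⊕ V b) ≠ Sum.inl x
    split_ifs
    · exact fun h => h0 x hx (Sum.inl_injective h)
    · exact Sum.inr_ne_inl
    · exact fun h => hx _ (by omega) (Sum.inl_injective h)
  · rw [sub_lap_bridge a b w _ (fun h => h0 x hx (Sum.inl_injective h)) Sum.inr_ne_inl]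
    simp only [reduceCtorEq, if_false, Finset.sum_const_zero, add_zero, ND.lapV]
    refine Finset.sum_congr rfl fun d _ => ?_
    by_cases h : org a d = x
    · rw [if_pos h, if_pos (congrArg Sum.inl h)]
    · rw [if_neg h, if_neg fun h' => h (Sum.inl_injective h')]
  · rw [xdeg_inl, if_neg (h0 x hx), add_zero]
  · rcases z with z | z
    · exact ⟨z, rfl, hz⟩
    · exact (h0 x hx hz.1.symm).elim

theorem sub_right (a b : Mp) : Sub b (bridge a b) Sum.inr := by
  have h0 : ∀ x, Inn b x → bv b 0 ≠ x := fun x hx => hx 0 (Nat.zero_le _)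
  refine ⟨Sum.inr_injective, fun x hx p hp => ?_, fun x hx w => ?_, fun x hx => ?_,
    fun x hx z hz => ?_, fun x y h => h⟩
  · change (if p = 0 then Sum.inl (bv a 0) else if p ≤ 2 * per b + 1 then Sum.inr (bv b (p - 1))
      else Sum.inl (bv a (p - 2 * per b - 2)) : V a ⊕ V b) ≠ Sum.inr x
    split_ifs
    · exact Sum.inl_ne_inr
    · exact fun h => hx _ (by omega) (Sum.inr_injective h)
    · exact Sum.inl_ne_inr
  · rw [sub_lap_bridge a b w _ Sum.inl_ne_inr (fun h => h0 x hx (Sum.inr_injective h))]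
    simp only [reduceCtorEq, if_false, Finset.sum_const_zero, zero_add, ND.lapV]
    refine Finset.sum_congr rfl fun d _ => ?_
    by_cases h : org b d = x
    · rw [if_pos h, if_pos (congrArg Sum.inr h)]
    · rw [if_neg h, if_neg fun h' => h (Sum.inr_injective h')]
  · rw [xdeg_inr, if_neg (h0 x hx), add_zero]
  · rcases z with z | z
    · exact (h0 x hx hz.1.symm).elim
    · exact ⟨z, rfl, hz⟩

theorem ex_sub (st ki me : ℕ → Prop) (t : Mp) (ht : ok t) :
    ok (ex st ki me t) ∧ ∃ ι, Sub (ex st ki me t) t ι := by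
  induction t with
  | pt => exact ⟨ht, _, sub_refl _⟩
  | face t ih =>
    rw [ex]
    by_cases c1 : st (per (face t))
    · rw [if_pos c1]; exact ⟨ht, _, sub_refl _⟩
    rw [if_neg c1]
    by_cases c2 : ki (per (face t))
    · rw [if_pos c2]; exact ⟨trivial, _, sub_pt _⟩
    rw [if_neg c2]
    obtain ⟨h1, ι, h2⟩ := ih ht.1
    exact ⟨h1, _, h2.trans (sub_face ht)⟩
  | bridge a b iha ihb =>
    rw [ex]
    by_cases c1 : st (per (bridge a b))
    · rw [if_pos c1]; exact ⟨ht, _, sub_refl _⟩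
    rw [if_neg c1]
    by_cases c2 : ki (per (bridge a b))
    · rw [if_pos c2]; exact ⟨trivial, _, sub_pt _⟩
    rw [if_neg c2]
    by_cases c3 : size b ≤ size a
    · rw [if_pos c3]
      by_cases c4 : me (per b)
      · rw [if_pos c4]; exact ⟨ht.1, _, sub_left a b⟩
      rw [if_neg c4]
      obtain ⟨h1, ι, h2⟩ := iha ht.1
      exact ⟨h1, _, h2.trans (sub_left a b)⟩
    · rw [if_neg c3]
      by_cases c4 : me (per a)
      · rw [if_pos c4]; exact ⟨ht.2, _, sub_right a b⟩
      rw [if_neg c4]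
      obtain ⟨h1, ι, h2⟩ := ihb ht.2
      exact ⟨h1, _, h2.trans (sub_right a b)⟩

theorem size_ex_le (st ki me : ℕ → Prop) (t : Mp) : size (ex st ki me t) ≤ size t := by
  induction t with
  | pt => exact le_rfl
  | face t ih =>
    rw [ex]
    split_ifs
    · exact le_rfl
    · exact Nat.zero_le _
    · exact ih.trans (Nat.le_succ _)
  | bridge a b iha ihb =>
    rw [ex]
    split_ifs
    · exact le_rfl
    · exact Nat.zero_le _
    · exact Nat.le_add_right _ _
    · exact iha.trans (Nat.le_add_right _ _)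
    · exact Nat.le_add_left _ _
    · exact ihb.trans (Nat.le_add_left _ _)

theorem ex_stop {st ki me : ℕ → Prop} {t : Mp} (h : st (per t)) : ex st ki me t = t := by
  cases t with
  | pt => rfl
  | face t => rw [ex, if_pos h]
  | bridge a b => rw [ex, if_pos h]

theorem Sub.lift {s t : Mp} {ι : V s → V t} (h : Sub s t ι) (hs : ok s) {x : V s} {k : ℕ}
    (hk : k ≤ dB s x) {z : V t} (hz : Within t k (ι x) z) : ∃ y, ι y = z ∧ Within s k x y := by
  have _ := hs
  induction k generalizing z with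
  | zero => exact ⟨x, hz, rfl⟩
  | succ k ih =>
    rcases hz with hz | ⟨z', hz', ha⟩
    · obtain ⟨y, h1, h2⟩ := ih (by omega) hz
      exact ⟨y, h1, Or.inl h2⟩
    · obtain ⟨y', rfl, h2⟩ := ih (by omega) hz'
      have h3 : dW s x y' < dB s x := (M2.dW_le h2).trans_lt (by omega)
      obtain ⟨y, h4, h5⟩ := h.out y' (fun p hp => (M2.ne_bv_of_lt h3 hp).symm) z ha
      exact ⟨y, h4, Or.inr ⟨y', h2, h5⟩⟩

end Pool.Agent.QL.NT
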